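import Pool.Agent.Helper49.KM.Defs
import Pool.Agent.NPC.Dec
import Pool.Agent.H642R2.TMSim
import Pool.Agent.H671R2.PolyAuto
import Pool.Agent.H687R2.IntPoly
import Pool.Agent.H550R2.Iso.Raw

/-!
# Kernels for the strings of bounded length, and reductions
-/

set_option autoImplicit false

namespace Pool.Agent.Helper49.KM

open scoped InnerProductSpace
open Pool.Agent.NPC

/-- A function between encodable types computed on the codes in polynomial time. -/
theorem poly_of_raw {α β : Type} [TEnc α] [TEnc β] {g : α → β} {F : List Bool → List Bool}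
    (hF : PolyTime F) (h : ∀ a, F (bits a) = bits (g a)) : NPC.Poly g := by
  have h1 : PC (id : List Bool → List Bool) (id : List Bool → List Bool) F :=
    H642R2.TMSim.polyTime_toPC hF
  obtain ⟨c, p, hc⟩ := h1
  refine ⟨c, p, fun a => ?_⟩
  have := hc (bits a)
  rw [id, h a] at this
  exact this

/-- The condition of separability for all strings of length at most `N`. -/
def CumSep (κ : ℕ → List Bool → List Bool → ℤ) (q : Polynomial ℕ) (L : Set (List Bool)) : Prop :=
  NPC.Poly (fun a : List Unit × List Bool × List Bool => κ a.1.length a.2.1 a.2.2) ∧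
    ∀ N : ℕ, ∃ (H : Type) (_ : NormedAddCommGroup H) (_ : InnerProductSpace ℝ H)
      (φ : List Bool → H) (z : H),
      (∀ k x y, x.length ≤ N → y.length ≤ N → |k * ⟪φ x, φ y⟫_ℝ - κ k x y| ≤ 1) ∧
      (∀ x, x.length ≤ N → ‖φ x‖ ^ 2 ≤ q.eval N) ∧ ‖z‖ ^ 2 ≤ q.eval N ∧
      ∀ x, x.length ≤ N → (x ∈ L → 1 ≤ ⟪φ x, z⟫_ℝ) ∧ (x ∉ L → ⟪φ x, z⟫_ℝ ≤ -1)

theorem replicate_unit_length (l : List Unit) : List.replicate l.length () = l :=
  (List.eq_replicate_iff.2 ⟨rfl, fun _ _ => rfl⟩).symm

theorem cumSep_of_separable {L : Set (List Bool)} (h : Separable L) : ∃ κ q, CumSep κ q L := by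
  classical
  obtain ⟨κ, q, ⟨F, hF, hFκ⟩, hsep⟩ := h
  have hκ : NPC.Poly (fun a : List Unit × List Bool × List Bool => κ a.1.length a.2.1 a.2.2) := by
    refine poly_of_raw hF fun a => ?_
    rw [← hFκ, replicate_unit_length]
  refine ⟨fun k x y => if x.length = y.length then κ k x y else 0, (Polynomial.X + 1) * q, ?_, ?_⟩
  · exact NPC.Poly.ite (NPC.Poly.decide_eq (NPC.Poly.length (NPC.Poly.fst (NPC.Poly.snd NPC.Poly.id)))
      (NPC.Poly.length (NPC.Poly.snd (NPC.Poly.snd NPC.Poly.id)))) hκ (NPC.Poly.const 0)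
  · intro N
    choose H i1 i2 φ z h1 h2 h3 h4 using hsep
    let _ : ∀ m : Fin (N + 1), NormedAddCommGroup (H m) := fun m => i1 m
    let _ : ∀ m : Fin (N + 1), InnerProductSpace ℝ (H m) := fun m => i2 m
    have hqN : ∀ n ≤ N, ((q.eval n : ℕ) : ℝ) ≤ q.eval N := fun n hn => by
      exact_mod_cast eval_mono q hn
    have hQ : (((Polynomial.X + 1) * q).eval N : ℕ) = (N + 1) * q.eval N := by simp
    have hin : ∀ (x : List Bool) (_ : x.length ≤ N) (v : ∀ m : Fin (N + 1), H m),
        ⟪(WithLp.toLp 2 (fun m : Fin (N + 1) => if x.length = m then φ m x else 0) :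
          PiLp 2 (fun m : Fin (N + 1) => H m)), WithLp.toLp 2 v⟫_ℝ =
          ⟪φ x.length x, v ⟨x.length, by omega⟩⟫_ℝ := by
      intro x hx v
      rw [PiLp.inner_apply]
      simp only
      rw [Finset.sum_eq_single (⟨x.length, by omega⟩ : Fin (N + 1))]
      · simp only [if_true]
      · intro m _ hm
        rw [if_neg, inner_zero_left]
        intro h
        exact hm (Fin.ext h.symm)
      · intro h
        exact absurd (Finset.mem_univ _) h
    refine ⟨PiLp 2 (fun m : Fin (N + 1) => H m), inferInstance, inferInstance,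
      fun x => WithLp.toLp 2 (fun m : Fin (N + 1) => if x.length = m then φ m x else 0),
      WithLp.toLp 2 (fun m : Fin (N + 1) => z m), ?_, ?_, ?_, ?_⟩
    · intro k x y hx hy
      simp only
      rw [hin x hx]
      simp only
      by_cases hxy : x.length = y.length
      · rw [if_pos hxy.symm, if_pos hxy]
        exact h1 _ k x y rfl hxy.symm
      · rw [if_neg (fun h => hxy h.symm), if_neg hxy, inner_zero_right]
        simp
    · intro x hx
      rw [← real_inner_self_eq_norm_sq, hin x hx]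
      simp only [if_true]
      rw [real_inner_self_eq_norm_sq]
      have e1 := h2 _ x rfl
      have e2 := hqN _ hx
      have e3 : q.eval N ≤ ((Polynomial.X + 1) * q).eval N := by
        rw [hQ]; exact Nat.le_mul_of_pos_left _ (Nat.succ_pos _)
      have e4 : ((q.eval N : ℕ) : ℝ) ≤ (((Polynomial.X + 1) * q).eval N : ℕ) := by
        exact_mod_cast e3
      exact (e1.trans e2).trans e4
    · rw [PiLp.norm_sq_eq_of_L2]
      simp only
      have e1 : ∀ m ∈ (Finset.univ : Finset (Fin (N + 1))), ‖z m‖ ^ 2 ≤ (q.eval N : ℕ) :=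
        fun m _ => (h3 m).trans (hqN m (by omega))
      refine (Finset.sum_le_sum e1).trans ?_
      rw [Finset.sum_const, Finset.card_univ, Fintype.card_fin, nsmul_eq_mul, hQ]
      push_cast
      exact le_rfl
    · intro x hx
      simp only
      rw [hin x hx]
      exact h4 _ x rfl

/-- Separability passes to reducible languages. -/
theorem CumSep.of_reduces {κ : ℕ → List Bool → List Bool → ℤ} {q : Polynomial ℕ}
    {A L : Set (List Bool)} (h : CumSep κ q A) (hr : Reduces L A) : ∃ κ' q', CumSep κ' q' L := by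
  obtain ⟨f, hf, hfA⟩ := hr
  obtain ⟨hκ, hsep⟩ := h
  have hfp : NPC.Poly f := PIso.poly_iff.2 hf
  obtain ⟨r, hr⟩ := hfp.sz_le
  refine ⟨fun k x y => κ k (f x) (f y), q.comp (r.comp (Polynomial.C 4 * Polynomial.X + 1)), ?_, ?_⟩
  · exact hκ.comp (NPC.Poly.pair (NPC.Poly.fst NPC.Poly.id) (NPC.Poly.pair
      (hfp.comp (NPC.Poly.fst (NPC.Poly.snd NPC.Poly.id)))
      (hfp.comp (NPC.Poly.snd (NPC.Poly.snd NPC.Poly.id)))))
  · intro N
    obtain ⟨H, i1, i2, φ, z, h1, h2, h3, h4⟩ :=
      hsep ((r.comp (Polynomial.C 4 * Polynomial.X + 1)).eval N)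
    have hlen : ∀ x : List Bool, x.length ≤ N → (f x).length ≤
        (r.comp (Polynomial.C 4 * Polynomial.X + 1)).eval N := by
      intro x hx
      have e1 := hr x
      have e2 := length_lt_sz (f x)
      have e3 := sz_listBool_le x
      have e4 : r.eval (sz x) ≤ r.eval (4 * N + 1) := eval_mono r (by omega)
      simp only [Polynomial.eval_comp, Polynomial.eval_add, Polynomial.eval_mul,
        Polynomial.eval_C, Polynomial.eval_X, Polynomial.eval_one]
      omega
    refine ⟨H, i1, i2, fun x => φ (f x), z, fun k x y hx hy => h1 _ _ _ (hlen x hx) (hlen y hy),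
      fun x hx => ?_, ?_, fun x hx => ?_⟩
    · rw [Polynomial.eval_comp]
      exact h2 _ (hlen x hx)
    · rw [Polynomial.eval_comp]
      exact h3
    · obtain ⟨e1, e2⟩ := h4 _ (hlen x hx)
      exact ⟨fun hx' => e1 ((hfA x).1 hx'), fun hx' => e2 fun h => hx' ((hfA x).2 h)⟩

end Pool.Agent.Helper49.KM
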