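import Pool.Agent.Helper49.KM.Alg
import Pool.Agent.H579R2.Spt.Main

/-!
# Kernels with polynomial margin for `PSPACE`
-/

set_option autoImplicit false

namespace Pool.Agent.Helper49.KM

open Pool.Agent.NPC
open Pool.Agent.H623R2.PS (evq InPSPACE poly_replicate PSPACEHard)
open Pool.Agent.H656R2.AK (evc QF QFwf qbf_hard)
open Pool.Agent.Helper70K1.SP
open Pool.Agent.H579R2.Spt (sgn tests lab prm prm_spec prm_poly two_pow_size_poly bits_poly)
open scoped InnerProductSpace

/-! ### Parameters -/

/-- The bound for the length of the queries. -/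
noncomputable def PNK : Polynomial ℕ :=
  Polynomial.C 4 * Polynomial.X * Polynomial.X + Polynomial.C 60 * Polynomial.X + Polynomial.C 60

variable (q : Polynomial ℕ)

/-- The bound for the squared norms. -/
noncomputable def PZ : Polynomial ℕ := q.comp PNK

/-- The bound for the number of strings kept. -/
noncomputable def PMK : Polynomial ℕ := Polynomial.C 4 * PZ q * PZ q

/-- The lower bound for the prime of the tests. -/
noncomputable def PP : Polynomial ℕ := PMK q * (Polynomial.X * Polynomial.X) + Polynomial.C 1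

/-- The bound for the number of candidates. -/
noncomputable def PKK : Polynomial ℕ := PMK q + Polynomial.C 1

/-- The lower bound for the modulus. -/
noncomputable def PML : Polynomial ℕ :=
  PKK q * PKK q * Polynomial.X + Polynomial.X + Polynomial.C 2

/-- The upper bound for the modulus. -/
noncomputable def PDK : Polynomial ℕ := Polynomial.C 2 * PML q + Polynomial.C 1

/-- The bound for all the numbers in the queries. -/
noncomputable def PBK : Polynomial ℕ :=
  PDK q + Polynomial.C 4 * PP q + Polynomial.X * Polynomial.X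

theorem sz_queryK {m p : ℕ} {F : List (List (Bool × ℕ))} {os : List Op} {r : List ℕ} {i : ℕ}
    {P j : ℕ} {t : ℕ × ℕ} (hp : p < 2 ^ m) (hF : sz F ≤ m) (hos : sz os ≤ m) (hr : r.length ≤ m)
    (hr2 : ∀ a ∈ r, a ≤ p) (hi : i < m) (h1 : P < 2 ^ m) (h2 : j < 2 ^ m) (h3 : t.1 < 2 ^ m)
    (h4 : t.2 < 2 ^ m) :
    sz ((((List.replicate m (), p, F, os, r, i) : Ins), (P, (j, t))) : QK) ≤ PNK.eval m := by
  obtain ⟨α, β⟩ := t
  have e1 : sz r ≤ m * (4 * m + 2) + 1 := by
    refine (sz_le_length_mul r (4 * m + 1) fun a ha => sz_lt_two_pow (by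
      have := hr2 a ha
      omega)).trans ?_
    exact Nat.add_le_add_right (Nat.mul_le_mul_right _ hr) _
  have e2 := sz_lt_two_pow (a := i) (m := m) (hi.trans Nat.lt_two_pow_self)
  have e3 := sz_lt_two_pow hp
  have e4 := sz_lt_two_pow h1
  have e5 := sz_lt_two_pow h2
  have e6 := sz_lt_two_pow h3
  have e7 := sz_lt_two_pow h4
  simp only [sz_pair, sz_replicate, PNK, Polynomial.eval_add, Polynomial.eval_mul,
    Polynomial.eval_C, Polynomial.eval_X] at *
  nlinarith

theorem two_pow_size_le {P : ℕ} (hP : 0 < P) : 2 ^ Nat.size P ≤ 2 * P := by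
  have h1 : 0 < Nat.size P := Nat.size_pos.2 hP
  have h2 : 2 ^ (Nat.size P - 1) ≤ P := by
    by_contra hcon
    have := Nat.size_le.2 (not_le.1 hcon)
    omega
  have h3 : 2 ^ Nat.size P = 2 * 2 ^ (Nat.size P - 1) := by
    rw [← pow_succ']
    congr 1
    omega
  omega

/-- The candidates for the list of coefficients. -/
noncomputable def cd (κ : ℕ → List Bool → List Bool → ℤ) (I : Ins) : List (List ℕ) :=
  ((level κ (bits : QK → List Bool) (prm ((PP q).eval I.m)) (2 ^ Nat.size (prm ((PP q).eval I.m)))
    ((PZ q).eval I.m) ((PMK q).eval I.m) I (I.m * I.m)).map fun s => cf I.m (valB s)).filter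
      fun c => c.all fun a => decide (a ≤ I.p)

theorem cd_poly {κ : ℕ → List Bool → List Bool → ℤ} (hκ : KPoly κ) : NPC.Poly (cd q κ) := by
  have hm : UPoly (fun I : Ins => I.m) := uPoly_m NPC.Poly.id
  have hP : UPoly (fun I : Ins => prm ((PP q).eval I.m)) := prm_poly (hm.eval (PP q))
  have h1 := level_poly hκ (bits_poly (α := QK)) hP (two_pow_size_poly hP) (hm.eval (PZ q))
    (hm.eval (PMK q)) (UPoly.mul hm hm) (x := fun I : Ins => I) NPC.Poly.id
  unfold cd
  refine NPC.Poly.filter (p := fun (I : Ins) (c : List ℕ) => c.all fun b => decide (b ≤ I.p))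
    (NPC.Poly.map (F := fun (I : Ins) s => cf I.m (valB s)) h1 ?_) ?_
  · exact poly_cf (hm.comp (NPC.Poly.fst NPC.Poly.id)) (by fun_prop)
  · fun_prop

theorem cd_spec (κ : ℕ → List Bool → List Bool → ℤ) (I : Ins) :
    ∀ c ∈ cd q κ I, c.length = I.m ∧ ∀ a ∈ c, a ≤ I.p := by
  intro c hc
  unfold cd at hc
  rw [List.mem_filter, List.all_eq_true] at hc
  obtain ⟨h1, h2⟩ := hc
  obtain ⟨s, _, rfl⟩ := List.mem_map.1 h1
  exact ⟨cf_length _ _, fun a ha => by simpa using h2 a ha⟩

theorem cd_length (κ : ℕ → List Bool → List Bool → ℤ) (I : Ins) :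
    (cd q κ I).length ≤ (PKK q).eval I.m := by
  unfold cd
  refine (List.length_filter_le _ _).trans ?_
  rw [List.length_map]
  refine (level_inv κ _ _ _ _ _ I (I.m * I.m)).2.1.trans ?_
  unfold PKK
  rw [Polynomial.eval_add, Polynomial.eval_C]
  omega

variable {q}

theorem cd_mem {κ : ℕ → List Bool → List Bool → ℤ} (h : CumSep κ q LK) {I : Ins} (hwf : Wf I)
    [Fact (I.p + 1).Prime] (hmp : I.m ≤ I.p)
    (hsz : ∀ (P j : ℕ) (t : ℕ × ℕ), P < 2 ^ I.m → j < 2 ^ I.m → t.1 < 2 ^ I.m → t.2 < 2 ^ I.m →
      sz ((I, (P, (j, t))) : QK) ≤ PNK.eval I.m)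
    (hbig : (PBK q).eval I.m < 2 ^ I.m) {V : ℕ} (hV : Good I V) : cf I.m V ∈ cd q κ I := by
  obtain ⟨M, hM, rfl⟩ := exists_valB hV.1
  set m := I.m with hm
  set Z := (PZ q).eval m with hZ
  set P := prm ((PP q).eval m) with hP
  have hPP : (PP q).eval m = (PMK q).eval m * (m * m) + 1 := by simp [PP]
  have hPM : (PMK q).eval m = 4 * Z * Z := by simp [PMK, hZ]
  have hB : (PBK q).eval m = (PDK q).eval m + 4 * (PP q).eval m + m * m := by simp [PBK]
  have hZe : Z = q.eval (PNK.eval m) := by rw [hZ, PZ, Polynomial.eval_comp]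
  obtain ⟨hP1, hP2, hP3⟩ := prm_spec (m := (PP q).eval m) (by omega)
  rw [← hP] at hP1 hP2 hP3
  have hT1 : P < 2 ^ Nat.size P := Nat.lt_size_self P
  have hT2 := two_pow_size_le hP1.pos
  have hPlt : P < 2 ^ m := by omega
  have hTlt : 2 ^ Nat.size P < 2 ^ m := by omega
  have hmm : m * m < 2 ^ m := by omega
  have hlen : ∀ j ≤ M.length, ∀ t ∈ Finset.range P ×ˢ Finset.range (2 ^ Nat.size P),
      (bits ((I, (P, (j, t))) : QK)).length ≤ PNK.eval m := by
    intro j hj t ht
    rw [Finset.mem_product, Finset.mem_range, Finset.mem_range] at ht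
    rw [bits_length]
    exact hsz P j t hPlt (by omega) (by omega) (by omega)
  have hsees : Sees κ (bits : QK → List Bool) P (2 ^ Nat.size P) Z Z I M := by
    obtain ⟨H, i1, i2, φ, z, h1, h2, h3, h4⟩ := h.2 (PNK.eval m)
    refine ⟨H, i1, i2, φ, z, ?_, ?_, ?_, ?_⟩
    · intro j hj t ht t' ht'
      exact h1 (4 * Z) _ _ (hlen j hj t ht) (hlen j hj t' ht')
    · intro j hj t ht
      rw [hZe]
      exact h2 _ (hlen j hj t ht)
    · rw [hZe]
      exact h3
    · intro j hj t ht
      obtain ⟨h5, h6⟩ := h4 _ (hlen j hj t ht)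
      refine ⟨fun hb => h5 ((mem_LK hwf P j t).2 ⟨M, hM, hV, hb⟩), fun hb => h6 fun hin => ?_⟩
      obtain ⟨M', hM', hV', hb'⟩ := (mem_LK hwf P j t).1 hin
      have h7 : valB M = valB M' := good_unique hmp hV hV'
      have h8 : M = M' := valB_inj M M' (hM.trans hM'.symm) h7
      rw [← h8, hb] at hb'
      exact absurd hb' (by simp)
  have hmem : M ∈ level κ (bits : QK → List Bool) P (2 ^ Nat.size P) Z ((PMK q).eval m) I
      M.length := by
    refine level_mem hsees hP1 hT1.le (by rw [hPM]) ?_
    rw [hM]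
    rw [← hPM]
    omega
  unfold cd
  rw [List.mem_filter, List.all_eq_true]
  refine ⟨List.mem_map.2 ⟨M, ?_, rfl⟩, fun c hc => ?_⟩
  · rw [hM] at hmem
    exact hmem
  · rw [decide_eq_true_eq]
    exact hV.2.1 c hc

/-! ### The main theorem -/

theorem collapse_of_cumSep {κ : ℕ → List Bool → List Bool → ℤ} (h : CumSep κ q LK)
    {L : Set (List Bool)} (hL : InPSPACE L) : InP L := by
  obtain ⟨g, hg, hgwf, hgL⟩ := qbf_hard hL
  -- the size parameter
  have hbig : NPC.Poly (fun x : List Bool => ((g x).2, (opsQ (g x).1.length 0 (g x).1,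
      (g x).1))) := by
    have h1 : NPC.Poly (fun x : List Bool => (g x).1) := NPC.Poly.fst hg
    have h2 := poly_opsQ h1
    fun_prop
  obtain ⟨r1, hr1⟩ := hbig.sz_le
  obtain ⟨c0, hc0⟩ := poly_lt_two_pow (PBK q)
  set mm : List Bool → ℕ := fun x => r1.eval (4 * x.length + 1) + 10 + c0 with hmm
  have hmmU : UPoly mm := by
    refine UPoly.add (UPoly.add ?_ (UPoly.const 10)) (UPoly.const c0)
    exact (UPoly.add (UPoly.mul (UPoly.const 4) (UPoly.length NPC.Poly.id))
      (UPoly.const 1)).eval r1
  set pp : List Bool → ℕ := fun x => findP ((PML q).eval (mm x)) - 1 with hpp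
  have hppP : NPC.Poly pp := by
    have := poly_findP (hmmU.eval (PML q))
    fun_prop
  set WW : List Bool → List Unit := fun x => List.replicate (mm x) () with hWW
  have hWWl : ∀ x, (WW x).length = mm x := fun x => by rw [hWW]; simp
  set rr : List Bool → List ℕ := fun x => List.replicate (g x).1.length 0 with hrr
  have hrrP : NPC.Poly rr := poly_replicate (UPoly.length (NPC.Poly.fst hg)) 0
  set dec : List Bool → Bool := fun x => decide (runC (cd q κ)
    ((PDK q).eval (WW x).length) (WW x) (pp x) (g x).2 (opsQ (g x).1.length 0 (g x).1) (rr x) %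
      (pp x + 1) = 1) with hdec
  have hdecP : NPC.Poly dec := by
    have h1 := poly_runC (cd_poly q h.1) (PDK q) (W := WW) (p := pp) (F := fun x => (g x).2)
      (os := fun x => opsQ (g x).1.length 0 (g x).1) (r := rr) hmmU hppP (NPC.Poly.snd hg)
      (poly_opsQ (NPC.Poly.fst hg)) hrrP
    exact NPC.Poly.dec_eq (NPC.Poly.mod h1 (by fun_prop)) (NPC.Poly.const 1)
  refine ⟨fun x => [dec x], polyTime_of_poly hdecP, fun x => ?_⟩
  -- correctness
  set m := mm x with hm
  have hsz : sz (g x).2 + sz (opsQ (g x).1.length 0 (g x).1) + sz (g x).1 + 10 + c0 ≤ m := by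
    have h1 := hr1 x
    have h2 := sz_listBool_le x
    have h3 := eval_mono r1 h2
    simp only [sz_pair] at h1
    rw [hm, hmm]
    simp only
    omega
  have hn : (g x).1.length < sz (g x).1 := length_lt_sz _
  have hpow := hc0 m (by omega)
  have hBK : (PBK q).eval m = (PDK q).eval m + 4 * (PP q).eval m + m * m := by simp [PBK]
  have hfp := findP_spec (M := (PML q).eval m) (by simp [PML])
  have hpx : pp x = findP ((PML q).eval m) - 1 := rfl
  have hPM : (PML q).eval m = (PKK q).eval m * (PKK q).eval m * m + m + 2 := by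
    simp [PML]
  have hPD : (PDK q).eval m = 2 * (PML q).eval m + 1 := by simp [PDK]
  have hp1 : pp x + 1 = findP ((PML q).eval m) := by omega
  have hprime : Fact (pp x + 1).Prime := ⟨by rw [hp1]; exact hfp.1⟩
  set p := pp x with hp
  have hpm : p < 2 ^ (WW x).length := by rw [hWWl, ← hm]; omega
  have hdegleaf : (((g x).2).map List.length).sum + 2 < m := by
    have key : ∀ F : List (List (Bool × ℕ)), (F.map List.length).sum + 1 ≤ sz F := by
      intro F
      induction F with
      | nil => simp
      | cons c F ih =>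
        have := length_lt_sz c
        simp only [List.map_cons, List.sum_cons, sz_list_cons]
        omega
    have := key (g x).2
    omega
  have hrc := runC_correct (cd := cd q κ)
    (D := (PDK q).eval (WW x).length) (W := WW x) (p := p) (cd_spec q κ) (F := (g x).2)
    (os0 := opsQ (g x).1.length 0 (g x).1) (n := (g x).1.length)
    (d := (((g x).2).map List.length).sum + 2) (K := (PKK q).eval m) hpm (by omega)
    (by rw [hWWl, ← hm]; exact hdegleaf) (by rw [hWWl, ← hm]; omega)
    (by rw [hWWl, ← hm]; omega) (opsQ_idx _ _ _ (by omega))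
    (allDeg_suffix (by omega) (fun i _ => (degLE_leafC _ i).mono (by omega)) _ _) ?_
    (opsQ (g x).1.length 0 (g x).1) (rr x) List.suffix_rfl (by rw [hrr]; simp) (by
      intro a ha
      rw [hrr] at ha
      simp only at ha
      rw [List.eq_of_mem_replicate ha]
      exact Nat.zero_le _)
  · -- the final equivalence
    rw [hgL x]
    have e1 : pt p (rr x) = fun _ => (0 : ZMod (p + 1)) := by
      funext i
      unfold pt
      rw [hrr]
      simp only
      by_cases hi : i < (g x).1.length
      · rw [List.getD_eq_getElem _ _ (by simpa using hi)]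
        simp
      · rw [List.getD_eq_getElem?_getD, List.getElem?_eq_none (by simpa using hi)]
        simp
    rw [e1, val_ops] at hrc
    have h2 : ∀ y : ℕ, y % (p + 1) = 1 ↔ (y : ZMod (p + 1)) = 1 := by
      intro y
      have h3 := ZMod.natCast_eq_natCast_iff' y 1 (p + 1)
      rw [Nat.mod_eq_of_lt (a := 1) (by have := hprime.out.one_lt; omega), Nat.cast_one] at h3
      exact h3.symm
    simp only [List.cons.injEq, and_true, hdec, decide_eq_true_eq]
    rw [h2, hrc]
    unfold bit
    split_ifs with hb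
    · simp [hb]
    · simp [hb]
  · -- the candidates
    intro os r i hos hrl hra hi
    set I : Ins := (WW x, p, (g x).2, os, r, i) with hI
    have hIm : I.m = m := by
      change (WW x).length = m
      rw [hWWl]
    have hW : WW x = List.replicate m () := rfl
    constructor
    · have := cd_length q κ I
      rwa [hIm] at this
    · intro V hV
      have hwf : Wf I := ⟨by rw [hIm]; rw [hWWl, ← hm] at hpm; exact hpm, by
        change i < r.length
        omega, fun o ho => by
        change o.2 < r.length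
        rw [hrl]
        exact opsQ_idx _ _ 0 (by omega) o (hos.subset ho)⟩
      have hIp : I.p = p := rfl
      have : Fact (I.p + 1).Prime := hprime
      have hmain := cd_mem (κ := κ) h hwf (by rw [hIm, hIp]; omega) ?_ (by rw [hIm]; exact hpow) hV
      · exact hmain
      · intro P j t h1 h2 h3 h4
        rw [hIm] at h1 h2 h3 h4 ⊢
        rw [hI, hW]
        exact sz_queryK (by rw [hWWl, ← hm] at hpm; exact hpm) (by omega)
          ((sz_suffix hos).trans (by omega)) (by omega) hra (by omega) h1 h2 h3 h4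

/-- If a language that is hard for polynomial space has a kernel with polynomial margin, then
polynomial space collapses to polynomial time. -/
theorem collapse_of_hard {A : Set (List Bool)} (hA : PSPACEHard A) (h : Separable A) :
    ∀ L : Set (List Bool), InPSPACE L → InP L := by
  obtain ⟨κ, q, h1⟩ := cumSep_of_separable h
  obtain ⟨κ', q', h2⟩ := h1.of_reduces (hA LK inPSPACE_LK)
  exact fun L hL => collapse_of_cumSep h2 hL

/-- A function on codes from a function between encodable types. -/
theorem raw_of_poly {α β : Type} [TEnc α] [TDec α] [TEnc β] {g : α → β} (hg : NPC.Poly g) :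
    ∃ F : List Bool → List Bool, PolyTime F ∧ ∀ a, F (bits a) = bits (g a) := by
  refine ⟨fun s => (unbits α s).elim [] fun a => bits (g a), PIso.poly_iff.1 ?_, fun a => ?_⟩
  · exact NPC.Poly.optElim (o := fun s => unbits α s) (g := fun _ => [])
      (h := fun _ a => bits (g a)) poly_unbits (NPC.Poly.const _)
      (bits_poly.comp (hg.comp (NPC.Poly.snd NPC.Poly.id)))
  · simp only [unbits_bits, Option.elim_some]

/-- Languages in polynomial time have kernels with margin one. -/
theorem separable_of_inP {L : Set (List Bool)} (h : InP L) : Separable L := by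
  obtain ⟨f, hf, hfL⟩ := h
  have hfp : NPC.Poly f := PIso.poly_iff.2 hf
  set s : List Bool → ℤ := fun x => sgn (decide (f x = [true])) with hs
  have hsp : NPC.Poly s := sgn_poly (NPC.Poly.dec_eq hfp (NPC.Poly.const [true]))
  have hss : ∀ x, ((s x : ℤ) : ℝ) * (s x : ℤ) = 1 := by
    intro x
    rw [← Int.cast_mul, hs]
    simp only
    rw [H579R2.Spt.sgn_mul_self]
    simp
  have hk : NPC.Poly (fun a : List Unit × List Bool × List Bool =>
      ((a.1.length : ℕ) : ℤ) * (s a.2.1 * s a.2.2)) := by
    refine NPC.Poly.imul (NPC.Poly.natCast (by fun_prop)) (NPC.Poly.imul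
      (hsp.comp (NPC.Poly.fst (NPC.Poly.snd NPC.Poly.id)))
      (hsp.comp (NPC.Poly.snd (NPC.Poly.snd NPC.Poly.id))))
  obtain ⟨F, hF, hFk⟩ := raw_of_poly hk
  refine ⟨fun k x y => (k : ℤ) * (s x * s y), 1, ⟨F, hF, fun k x y => ?_⟩, fun n => ?_⟩
  · rw [hFk]
    simp only [List.length_replicate]
  · refine ⟨ℝ, inferInstance, inferInstance, fun x => ((s x : ℤ) : ℝ), 1, ?_, ?_, ?_, ?_⟩
    · intro k x y _ _
      have : ((k : ℕ) : ℝ) * ⟪((s x : ℤ) : ℝ), ((s y : ℤ) : ℝ)⟫_ℝ -
          (((k : ℤ) * (s x * s y) : ℤ) : ℝ) = 0 := by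
        simp only [RCLike.inner_apply, conj_trivial]
        push_cast
        ring
      rw [this]
      simp
    · intro x _
      rw [Real.norm_eq_abs, sq_abs, sq, hss]
      simp
    · simp
    · intro x _
      have hsx : ⟪((s x : ℤ) : ℝ), (1 : ℝ)⟫_ℝ = ((s x : ℤ) : ℝ) := by simp
      simp only [hsx]
      constructor
      · intro hx
        have : f x = [true] := (hfL x).1 hx
        simp [hs, sgn, this]
      · intro hx
        have : ¬ f x = [true] := fun h => hx ((hfL x).2 h)
        simp [hs, sgn, this]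

end Pool.Agent.Helper49.KM
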