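import Pool.Agent.Helper49.KM.Search

/-!
# The search is polynomial
-/

set_option autoImplicit false

namespace Pool.Agent.Helper49.KM

open Pool.Agent.NPC
open Pool.Agent.H579R2.Spt (sgn tests lab tests_poly lab_poly children children_poly)

/-- The assumption that a kernel is computed in polynomial time. -/
def KPoly (κ : ℕ → List Bool → List Bool → ℤ) : Prop :=
  NPC.Poly (fun a : List Unit × List Bool × List Bool => κ a.1.length a.2.1 a.2.2)

variable {α : Type} [TEnc α]

theorem kpoly_comp {κ : ℕ → List Bool → List Bool → ℤ} (h : KPoly κ) {k : α → ℕ}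
    {x y : α → List Bool} (hk : UPoly k) (hx : NPC.Poly x) (hy : NPC.Poly y) :
    NPC.Poly (fun a => κ (k a) (x a) (y a)) := by
  have h1 : NPC.Poly (fun a => (List.replicate (k a) (), x a, y a)) :=
    NPC.Poly.pair hk (NPC.Poly.pair hx hy)
  refine (NPC.Poly.comp h h1).congr fun a => ?_
  simp only [List.length_replicate]

theorem sgn_poly {b : α → Bool} (hb : NPC.Poly b) : NPC.Poly (fun a => sgn (b a)) :=
  (NPC.Poly.cond hb (NPC.Poly.const (1 : ℤ)) (NPC.Poly.const (-1 : ℤ))).congr fun a => by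
    cases b a <;> rfl

variable {X : Type} [TEnc X] {Y : X × (ℕ × (ℕ × (ℕ × ℕ))) → List Bool}

theorem quad_poly {κ : ℕ → List Bool → List Bool → ℤ} (hκ : KPoly κ) (hY : NPC.Poly Y)
    {P T Z : α → ℕ} {x : α → X} {u : α → List Bool} (hP : UPoly P) (hT : UPoly T)
    (hZ : UPoly Z) (hx : NPC.Poly x) (hu : NPC.Poly u) :
    NPC.Poly (fun a => quad κ Y (P a) (T a) (Z a) (x a) (u a)) := by
  have hP' := hP.toPoly
  unfold quad
  refine NPC.Poly.isum (NPC.Poly.map (l := fun a => tests (P a) (T a))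
    (F := fun a t => ((tests (P a) (T a)).map fun t' =>
      (sgn (lab (P a) t (u a)) * sgn (lab (P a) t' (u a))) *
        κ (4 * Z a) (Y (x a, (P a, ((u a).length, t)))) (Y (x a, (P a, ((u a).length, t'))))).sum)
    (tests_poly hP hT) ?_)
  have e1 : NPC.Poly (fun p : α × ℕ × ℕ => p.1) := NPC.Poly.fst NPC.Poly.id
  refine NPC.Poly.isum (NPC.Poly.map (l := fun p : α × ℕ × ℕ => tests (P p.1) (T p.1))
    (F := fun p t' => (sgn (lab (P p.1) p.2 (u p.1)) * sgn (lab (P p.1) t' (u p.1))) *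
        κ (4 * Z p.1) (Y (x p.1, (P p.1, ((u p.1).length, p.2))))
          (Y (x p.1, (P p.1, ((u p.1).length, t')))))
    (tests_poly (hP.comp e1) (hT.comp e1)) ?_)
  have f1 : NPC.Poly (fun p : (α × ℕ × ℕ) × ℕ × ℕ => p.1.1) :=
    NPC.Poly.fst (NPC.Poly.fst NPC.Poly.id)
  have f2 : NPC.Poly (fun p : (α × ℕ × ℕ) × ℕ × ℕ => p.1.2) :=
    NPC.Poly.snd (NPC.Poly.fst NPC.Poly.id)
  have f3 : NPC.Poly (fun p : (α × ℕ × ℕ) × ℕ × ℕ => p.2) := NPC.Poly.snd NPC.Poly.id
  have g1 := hP'.comp f1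
  have g2 := hu.comp f1
  have g3 := hx.comp f1
  refine NPC.Poly.imul (NPC.Poly.imul (sgn_poly (lab_poly g1 f2 g2))
    (sgn_poly (lab_poly g1 f3 g2))) (kpoly_comp hκ ((UPoly.const 4).mul (hZ.comp f1)) ?_ ?_)
  · exact hY.comp (NPC.Poly.pair g3 (NPC.Poly.pair g1 (NPC.Poly.pair (NPC.Poly.length g2) f2)))
  · exact hY.comp (NPC.Poly.pair g3 (NPC.Poly.pair g1 (NPC.Poly.pair (NPC.Poly.length g2) f3)))

theorem keep_poly {κ : ℕ → List Bool → List Bool → ℤ} (hκ : KPoly κ) (hY : NPC.Poly Y)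
    {P T Z : α → ℕ} {x : α → X} {u : α → List Bool} (hP : UPoly P) (hT : UPoly T)
    (hZ : UPoly Z) (hx : NPC.Poly x) (hu : NPC.Poly u) :
    NPC.Poly (fun a => keep κ Y (P a) (T a) (Z a) (x a) (u a)) := by
  have hP' := hP.toPoly
  have hT' := hT.toPoly
  unfold keep
  refine NPC.Poly.ile (NPC.Poly.natCast ?_) (quad_poly hκ hY hP hT hZ hx hu)
  fun_prop

theorem next_poly {κ : ℕ → List Bool → List Bool → ℤ} (hκ : KPoly κ) (hY : NPC.Poly Y)
    {P T Z M : α → ℕ} {x : α → X} {W : α → List (List Bool)} (hP : UPoly P) (hT : UPoly T)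
    (hZ : UPoly Z) (hM : NPC.Poly M) (hx : NPC.Poly x) (hW : NPC.Poly W) :
    NPC.Poly (fun a => next κ Y (P a) (T a) (Z a) (M a) (x a) (W a)) := by
  have e1 : NPC.Poly (fun p : α × List Bool => p.1) := NPC.Poly.fst NPC.Poly.id
  have e2 : NPC.Poly (fun p : α × List Bool => p.2) := NPC.Poly.snd NPC.Poly.id
  have h1 : NPC.Poly (fun a => (children (W a)).filter
      (keep κ Y (P a) (T a) (Z a) (x a))) :=
    NPC.Poly.filter (p := fun a u => keep κ Y (P a) (T a) (Z a) (x a) u) (children_poly hW)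
      (keep_poly hκ hY (hP.comp e1) (hT.comp e1) (hZ.comp e1) (hx.comp e1) e2)
  exact NPC.Poly.ite (NPC.Poly.decide_le (NPC.Poly.length h1) hM) h1 (NPC.Poly.const [])

theorem level_poly {κ : ℕ → List Bool → List Bool → ℤ} (hκ : KPoly κ) (hY : NPC.Poly Y)
    {P T Z M n : α → ℕ} {x : α → X} (hP : UPoly P) (hT : UPoly T)
    (hZ : UPoly Z) (hM : UPoly M) (hn : UPoly n) (hx : NPC.Poly x) :
    NPC.Poly (fun a => level κ Y (P a) (T a) (Z a) (M a) (x a) (n a)) := by
  obtain ⟨qM', hqM'⟩ := NPC.Poly.sz_le hM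
  obtain ⟨qp', hqp'⟩ := NPC.Poly.sz_le hn
  have hMle : ∀ a, M a ≤ qM'.eval (sz a) := by
    intro a
    have h1 := hqM' a
    have h2 := length_lt_sz (List.replicate (M a) ())
    rw [List.length_replicate] at h2
    omega
  have hple : ∀ a, n a ≤ qp'.eval (sz a) := by
    intro a
    have h1 := hqp' a
    have h2 := length_lt_sz (List.replicate (n a) ())
    rw [List.length_replicate] at h2
    omega
  have e1 : NPC.Poly (fun q : α × List (List Bool) => q.1) := NPC.Poly.fst NPC.Poly.id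
  have e2 : NPC.Poly (fun q : α × List (List Bool) => q.2) := NPC.Poly.snd NPC.Poly.id
  have hstep : NPC.Poly (fun q : α × List (List Bool) =>
      next κ Y (P q.1) (T q.1) (Z q.1) (M q.1) (x q.1) q.2) :=
    next_poly hκ hY (hP.comp e1) (hT.comp e1) (hZ.comp e1) (hM.toPoly.comp e1) (hx.comp e1) e2
  have h1 := NPC.Poly.iterLen (l := fun a => List.replicate (n a) ())
    (s := fun _ : α => ([[]] : List (List Bool)))
    (F := fun a s => next κ Y (P a) (T a) (Z a) (M a) (x a) s) hn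
    (NPC.Poly.const _) hstep
    ((qM' + 1) * (Polynomial.C 4 * qp' + 8) + 16) (by
      intro a k hk
      rw [List.length_replicate] at hk
      obtain ⟨h2, h3, _⟩ := level_inv κ Y (P a) (T a) (Z a) (M a) (x a) k
      have e : (fun s => next κ Y (P a) (T a) (Z a) (M a) (x a) s)^[k] [[]] =
        level κ Y (P a) (T a) (Z a) (M a) (x a) k := rfl
      rw [e]
      set s := level κ Y (P a) (T a) (Z a) (M a) (x a) k
      have h4 := sz_le_length_mul s (4 * k + 1) (fun u hu => by
        have := sz_listBool_le u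
        rw [h2 u hu] at this
        exact this)
      have h7 := hMle a
      have h8 := hple a
      simp only [Polynomial.eval_add, Polynomial.eval_mul, Polynomial.eval_C, Polynomial.eval_one,
        Polynomial.eval_ofNat]
      have h9 : s.length ≤ qM'.eval (sz a) + 1 := h3.trans (by omega)
      have h10 : 4 * k + 1 + 1 ≤ 4 * qp'.eval (sz a) + 8 := by omega
      have h11 := Nat.mul_le_mul h9 h10
      omega)
  refine h1.congr fun a => ?_
  rw [List.length_replicate]
  rfl

end Pool.Agent.Helper49.KM
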