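import Mathlib

/-!
# A Bessel inequality for nearly orthogonal signs
-/

set_option autoImplicit false

namespace Pool.Agent.Helper49.KM

open Finset
open scoped InnerProductSpace

variable {H : Type*} [NormedAddCommGroup H] [InnerProductSpace ℝ H]

/-- Bessel's inequality for vectors tested against nearly orthogonal signs. -/
theorem bessel {ι N : Type*} [DecidableEq N] (Θ : Finset ι) (V : Finset N) (s : ι → N → ℝ)
    (F : ι → H) (E : ℝ) (hE0 : 0 ≤ E) (hs : ∀ t ∈ Θ, ∀ v ∈ V, s t v * s t v = 1)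
    (horth : ∀ u ∈ V, ∀ v ∈ V, u ≠ v → |∑ t ∈ Θ, s t u * s t v| ≤ E) :
    ∑ v ∈ V, ‖∑ t ∈ Θ, s t v • F t‖ ^ 2 ≤ (Θ.card + V.card * E) * ∑ t ∈ Θ, ‖F t‖ ^ 2 := by
  set G : N → H := fun v => ∑ t ∈ Θ, s t v • F t with hG
  set S : ℝ := ∑ v ∈ V, ‖G v‖ ^ 2 with hS
  set A : ℝ := ∑ t ∈ Θ, ‖F t‖ ^ 2 with hA
  set B : ℝ := ∑ t ∈ Θ, ‖∑ v ∈ V, s t v • G v‖ ^ 2 with hB
  have hS0 : 0 ≤ S := Finset.sum_nonneg fun v _ => sq_nonneg _
  have hA0 : 0 ≤ A := Finset.sum_nonneg fun v _ => sq_nonneg _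
  -- duality
  have h1 : S = ∑ t ∈ Θ, ⟪∑ v ∈ V, s t v • G v, F t⟫_ℝ := by
    have e1 : ∀ v ∈ V, ‖G v‖ ^ 2 = ∑ t ∈ Θ, s t v * ⟪G v, F t⟫_ℝ := by
      intro v _
      rw [← real_inner_self_eq_norm_sq]
      conv_lhs => rw [hG]
      simp only
      rw [inner_sum]
      refine Finset.sum_congr rfl fun t _ => ?_
      rw [inner_smul_right]
    rw [hS, Finset.sum_congr rfl e1, Finset.sum_comm]
    refine Finset.sum_congr rfl fun t _ => ?_
    rw [sum_inner]
    refine Finset.sum_congr rfl fun v _ => ?_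
    rw [inner_smul_left]
    simp
  have h2 : S ≤ ∑ t ∈ Θ, ‖∑ v ∈ V, s t v • G v‖ * ‖F t‖ := by
    rw [h1]
    exact Finset.sum_le_sum fun t _ => real_inner_le_norm _ _
  have h3 : S ^ 2 ≤ B * A := by
    have h4 : (∑ t ∈ Θ, ‖∑ v ∈ V, s t v • G v‖ * ‖F t‖) ^ 2 ≤ B * A :=
      Finset.sum_mul_sq_le_sq_mul_sq _ _ _
    exact (pow_le_pow_left₀ hS0 h2 2).trans h4
  -- the dual form
  have h5 : B ≤ (Θ.card + V.card * E) * S := by
    have e1 : ∀ t ∈ Θ, ‖∑ v ∈ V, s t v • G v‖ ^ 2 =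
        ∑ u ∈ V, ∑ v ∈ V, (s t u * s t v) * ⟪G u, G v⟫_ℝ := by
      intro t _
      rw [← real_inner_self_eq_norm_sq, sum_inner]
      refine Finset.sum_congr rfl fun u _ => ?_
      rw [inner_sum]
      refine Finset.sum_congr rfl fun v _ => ?_
      rw [inner_smul_left, inner_smul_right]
      simp
      ring
    rw [hB, Finset.sum_congr rfl e1, Finset.sum_comm]
    have e2 : ∀ u ∈ V, ∑ t ∈ Θ, ∑ v ∈ V, (s t u * s t v) * ⟪G u, G v⟫_ℝ ≤
        Θ.card * ‖G u‖ ^ 2 + E * (‖G u‖ * ∑ v ∈ V, ‖G v‖) := by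
      intro u hu
      rw [Finset.sum_comm]
      have e3 : ∀ v ∈ V, ∑ t ∈ Θ, (s t u * s t v) * ⟪G u, G v⟫_ℝ ≤
          (if v = u then Θ.card * ‖G u‖ ^ 2 else 0) + E * (‖G u‖ * ‖G v‖) := by
        intro v hv
        rw [← Finset.sum_mul]
        have hn : 0 ≤ E * (‖G u‖ * ‖G v‖) := by positivity
        by_cases huv : v = u
        · subst huv
          rw [if_pos rfl, Finset.sum_congr rfl (fun t ht => hs t ht v hv),
            real_inner_self_eq_norm_sq]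
          simp only [Finset.sum_const, nsmul_eq_mul, mul_one]
          linarith
        · rw [if_neg huv, zero_add]
          have h6 := horth u hu v hv (fun h => huv h.symm)
          calc (∑ t ∈ Θ, s t u * s t v) * ⟪G u, G v⟫_ℝ
              ≤ |(∑ t ∈ Θ, s t u * s t v) * ⟪G u, G v⟫_ℝ| := le_abs_self _
            _ = |∑ t ∈ Θ, s t u * s t v| * |⟪G u, G v⟫_ℝ| := abs_mul _ _
            _ ≤ E * (‖G u‖ * ‖G v‖) :=
              mul_le_mul h6 (abs_real_inner_le_norm _ _) (abs_nonneg _) hE0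
      refine (Finset.sum_le_sum e3).trans (le_of_eq ?_)
      rw [Finset.sum_add_distrib, Finset.sum_ite_eq' V u, if_pos hu, ← Finset.mul_sum,
        ← Finset.mul_sum]
    refine (Finset.sum_le_sum e2).trans ?_
    rw [Finset.sum_add_distrib, ← Finset.mul_sum, ← Finset.mul_sum, ← Finset.sum_mul, add_mul]
    have h7 : (∑ v ∈ V, ‖G v‖) * (∑ v ∈ V, ‖G v‖) ≤ V.card * S := by
      have := sq_sum_le_card_mul_sum_sq (s := V) (f := fun v => ‖G v‖)
      rw [sq] at this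
      exact this
    have h8 : E * ((∑ v ∈ V, ‖G v‖) * (∑ v ∈ V, ‖G v‖)) ≤ E * (V.card * S) :=
      mul_le_mul_of_nonneg_left h7 hE0
    have h9 : E * (V.card * S) = V.card * E * S := by ring
    rw [← hS]
    linarith
  have h6 : S * S ≤ ((Θ.card + V.card * E) * A) * S := by
    calc S * S = S ^ 2 := (sq S).symm
      _ ≤ B * A := h3
      _ ≤ ((Θ.card + V.card * E) * S) * A := mul_le_mul_of_nonneg_right h5 hA0
      _ = _ := by ring
  rcases hS0.eq_or_lt with h0 | h0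
  · rw [← h0]
    positivity
  · exact le_of_mul_le_mul_right h6 h0

end Pool.Agent.Helper49.KM
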