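import Pool.Agent.Helper49.KM.Bessel
import Pool.Agent.Helper49.KM.Cum
import Pool.Agent.H579R2.Spt.SPoly2

/-!
# Search for the prefixes of a hidden string with a kernel
-/

set_option autoImplicit false

namespace Pool.Agent.Helper49.KM

open Finset
open Pool.Agent.H579R2.Spt (sgn tests mem_tests lab lab_orth children mem_children
  children_nodup)
open scoped InnerProductSpace

variable {X : Type}

/-- The approximate squared norm (times `4 * Z`) of the signed sum of the features of the tests. -/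
def quad (κ : ℕ → List Bool → List Bool → ℤ) (Y : X × (ℕ × (ℕ × (ℕ × ℕ))) → List Bool)
    (P T Z : ℕ) (x : X) (u : List Bool) : ℤ :=
  ((tests P T).map fun t => ((tests P T).map fun t' =>
    (sgn (lab P t u) * sgn (lab P t' u)) *
      κ (4 * Z) (Y (x, (P, (u.length, t)))) (Y (x, (P, (u.length, t'))))).sum).sum

/-- The test for keeping a string. -/
def keep (κ : ℕ → List Bool → List Bool → ℤ) (Y : X × (ℕ × (ℕ × (ℕ × ℕ))) → List Bool)
    (P T Z : ℕ) (x : X) (u : List Bool) : Bool :=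
  decide (((3 * ((P * T) * (P * T)) : ℕ) : ℤ) ≤ quad κ Y P T Z x u)

/-- The next level. -/
def next (κ : ℕ → List Bool → List Bool → ℤ) (Y : X × (ℕ × (ℕ × (ℕ × ℕ))) → List Bool)
    (P T Z M : ℕ) (x : X) (W : List (List Bool)) : List (List Bool) :=
  if ((children W).filter (keep κ Y P T Z x)).length ≤ M then
    (children W).filter (keep κ Y P T Z x) else []

/-- The levels of the search. -/
def level (κ : ℕ → List Bool → List Bool → ℤ) (Y : X × (ℕ × (ℕ × (ℕ × ℕ))) → List Bool)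
    (P T Z M : ℕ) (x : X) (j : ℕ) : List (List Bool) :=
  (next κ Y P T Z M x)^[j] [[]]

theorem next_subset (κ : ℕ → List Bool → List Bool → ℤ)
    (Y : X × (ℕ × (ℕ × (ℕ × ℕ))) → List Bool) (P T Z M : ℕ) (x : X)
    (W : List (List Bool)) : ∀ u ∈ next κ Y P T Z M x W, u ∈ children W := by
  intro u hu
  unfold next at hu
  split_ifs at hu
  · exact (List.mem_filter.1 hu).1
  · simp at hu

theorem next_length (κ : ℕ → List Bool → List Bool → ℤ)
    (Y : X × (ℕ × (ℕ × (ℕ × ℕ))) → List Bool) (P T Z M : ℕ) (x : X)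
    (W : List (List Bool)) : (next κ Y P T Z M x W).length ≤ M := by
  unfold next
  split_ifs with h
  · exact h
  · simp

theorem next_nodup (κ : ℕ → List Bool → List Bool → ℤ)
    (Y : X × (ℕ × (ℕ × (ℕ × ℕ))) → List Bool) (P T Z M : ℕ) (x : X)
    {W : List (List Bool)} (h : W.Nodup) : (next κ Y P T Z M x W).Nodup := by
  unfold next
  split_ifs
  · exact (children_nodup h).filter _
  · simp

/-- General properties of the levels. -/
theorem level_inv (κ : ℕ → List Bool → List Bool → ℤ)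
    (Y : X × (ℕ × (ℕ × (ℕ × ℕ))) → List Bool) (P T Z M : ℕ) (x : X) (j : ℕ) :
    (∀ u ∈ level κ Y P T Z M x j, u.length = j) ∧ (level κ Y P T Z M x j).length ≤ max 1 M ∧
      (level κ Y P T Z M x j).Nodup := by
  unfold level
  induction j with
  | zero => simp
  | succ j ih =>
    rw [Function.iterate_succ_apply']
    obtain ⟨h1, h2, h3⟩ := ih
    refine ⟨?_, (next_length κ Y P T Z M x _).trans (le_max_right _ _),
      next_nodup κ Y P T Z M x h3⟩
    intro u hu
    obtain ⟨u', hu', b, rfl⟩ := mem_children.1 (next_subset κ Y P T Z M x _ u hu)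
    simp [h1 u' hu']

/-- The assumptions under which the search keeps the prefixes of `w`. -/
def Sees (κ : ℕ → List Bool → List Bool → ℤ) (Y : X × (ℕ × (ℕ × (ℕ × ℕ))) → List Bool)
    (P T Z R : ℕ) (x : X) (w : List Bool) : Prop :=
  ∃ (H : Type) (_ : NormedAddCommGroup H) (_ : InnerProductSpace ℝ H)
    (φ : List Bool → H) (z : H),
    (∀ j ≤ w.length, ∀ t ∈ range P ×ˢ range T, ∀ t' ∈ range P ×ˢ range T,
      |((4 * Z : ℕ) : ℝ) * ⟪φ (Y (x, (P, (j, t)))), φ (Y (x, (P, (j, t'))))⟫_ℝ -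
        κ (4 * Z) (Y (x, (P, (j, t)))) (Y (x, (P, (j, t'))))| ≤ 1) ∧
    (∀ j ≤ w.length, ∀ t ∈ range P ×ˢ range T, ‖φ (Y (x, (P, (j, t))))‖ ^ 2 ≤ R) ∧
    ‖z‖ ^ 2 ≤ Z ∧
    ∀ j ≤ w.length, ∀ t ∈ range P ×ˢ range T,
      (lab P t (w.take j) = true → 1 ≤ ⟪φ (Y (x, (P, (j, t)))), z⟫_ℝ) ∧
      (lab P t (w.take j) = false → ⟪φ (Y (x, (P, (j, t)))), z⟫_ℝ ≤ -1)

theorem tests_nodup (P T : ℕ) : (tests P T).Nodup := by
  unfold tests
  rw [List.nodup_flatMap]
  refine ⟨fun a _ => ?_, ?_⟩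
  · refine List.Nodup.map ?_ List.nodup_range
    intro b c h
    exact (Prod.mk.inj h).2
  · refine List.nodup_range.imp ?_
    intro a b hab
    simp only [Function.onFun, List.disjoint_left, List.mem_map]
    rintro t ⟨c, _, rfl⟩ ⟨d, _, h⟩
    exact hab (Prod.mk.inj h).1.symm

theorem tests_toFinset (P T : ℕ) : (tests P T).toFinset = range P ×ˢ range T := by
  ext t
  rw [List.mem_toFinset, mem_tests]

theorem sum_tests {M : Type} [AddCommMonoid M] (P T : ℕ) (g : ℕ × ℕ → M) :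
    ((tests P T).map g).sum = ∑ t ∈ range P ×ˢ range T, g t := by
  rw [← List.sum_toFinset _ (tests_nodup P T), tests_toFinset]

theorem quad_eq (κ : ℕ → List Bool → List Bool → ℤ)
    (Y : X × (ℕ × (ℕ × (ℕ × ℕ))) → List Bool) (P T Z : ℕ) (x : X) (u : List Bool) :
    quad κ Y P T Z x u = ∑ t ∈ range P ×ˢ range T, ∑ t' ∈ range P ×ˢ range T,
      (sgn (lab P t u) * sgn (lab P t' u)) *
      κ (4 * Z) (Y (x, (P, (u.length, t)))) (Y (x, (P, (u.length, t')))) := by
  unfold quad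
  rw [sum_tests]
  exact Finset.sum_congr rfl fun t _ => sum_tests _ _ _

theorem abs_sgn (b : Bool) : |((sgn b : ℤ) : ℝ)| = 1 := by cases b <;> simp [sgn]

theorem quad_approx {κ : ℕ → List Bool → List Bool → ℤ}
    {Y : X × (ℕ × (ℕ × (ℕ × ℕ))) → List Bool} {P T Z : ℕ} {x : X} {u : List Bool}
    {H : Type} [NormedAddCommGroup H] [InnerProductSpace ℝ H] (F : ℕ × ℕ → H)
    (h : ∀ t ∈ range P ×ˢ range T, ∀ t' ∈ range P ×ˢ range T,
      |((4 * Z : ℕ) : ℝ) * ⟪F t, F t'⟫_ℝ -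
        κ (4 * Z) (Y (x, (P, (u.length, t)))) (Y (x, (P, (u.length, t'))))| ≤ 1) :
    |((4 * Z : ℕ) : ℝ) * ‖∑ t ∈ range P ×ˢ range T, ((sgn (lab P t u) : ℤ) : ℝ) • F t‖ ^ 2 -
      (quad κ Y P T Z x u : ℤ)| ≤ ((P * T : ℕ) : ℝ) * ((P * T : ℕ) : ℝ) := by
  have e1 : ‖∑ t ∈ range P ×ˢ range T, ((sgn (lab P t u) : ℤ) : ℝ) • F t‖ ^ 2 =
      ∑ t ∈ range P ×ˢ range T, ∑ t' ∈ range P ×ˢ range T,
        (((sgn (lab P t u) : ℤ) : ℝ) * ((sgn (lab P t' u) : ℤ) : ℝ)) * ⟪F t, F t'⟫_ℝ := by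
    rw [← real_inner_self_eq_norm_sq, sum_inner]
    refine Finset.sum_congr rfl fun t _ => ?_
    rw [inner_sum]
    refine Finset.sum_congr rfl fun t' _ => ?_
    rw [inner_smul_left, inner_smul_right]
    simp
    ring
  have e2 : ((4 * Z : ℕ) : ℝ) * ‖∑ t ∈ range P ×ˢ range T,
      ((sgn (lab P t u) : ℤ) : ℝ) • F t‖ ^ 2 - (quad κ Y P T Z x u : ℤ) =
      ∑ t ∈ range P ×ˢ range T, ∑ t' ∈ range P ×ˢ range T,
        (((sgn (lab P t u) : ℤ) : ℝ) * ((sgn (lab P t' u) : ℤ) : ℝ)) *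
        (((4 * Z : ℕ) : ℝ) * ⟪F t, F t'⟫_ℝ -
        κ (4 * Z) (Y (x, (P, (u.length, t)))) (Y (x, (P, (u.length, t'))))) := by
    rw [e1, quad_eq, Int.cast_sum, Finset.mul_sum, ← Finset.sum_sub_distrib]
    refine Finset.sum_congr rfl fun t _ => ?_
    rw [Int.cast_sum, Finset.mul_sum, ← Finset.sum_sub_distrib]
    refine Finset.sum_congr rfl fun t' _ => ?_
    push_cast
    ring
  rw [e2]
  have hcard : ((range P ×ˢ range T).card : ℝ) = ((P * T : ℕ) : ℝ) := by
    rw [Finset.card_product, Finset.card_range, Finset.card_range]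
  refine (Finset.abs_sum_le_sum_abs _ _).trans ?_
  refine (Finset.sum_le_card_nsmul _ _ ((P * T : ℕ) : ℝ) fun t ht => ?_).trans ?_
  · refine (Finset.abs_sum_le_sum_abs _ _).trans ?_
    refine (Finset.sum_le_card_nsmul _ _ 1 fun t' ht' => ?_).trans ?_
    · rw [abs_mul, abs_mul, abs_sgn, abs_sgn, one_mul, one_mul]
      exact h t ht t' ht'
    · rw [nsmul_eq_mul, mul_one, hcard]
  · rw [nsmul_eq_mul, hcard]

theorem next_mem {κ : ℕ → List Bool → List Bool → ℤ}
    {Y : X × (ℕ × (ℕ × (ℕ × ℕ))) → List Bool} {P k Z R : ℕ} {x : X} {w : List Bool}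
    (hg : Sees κ Y P (2 ^ k) Z R x w) (hP : P.Prime) (hk : P ≤ 2 ^ k) {M : ℕ}
    (hM : 4 * Z * R ≤ M) (hE : 4 * Z * R * w.length ≤ P) (j : ℕ) (hj : j + 1 ≤ w.length)
    (W : List (List Bool)) (hW : ∀ u ∈ W, u.length = j) (hW2 : W.Nodup)
    (hmem : w.take j ∈ W) : w.take (j + 1) ∈ next κ Y P (2 ^ k) Z M x W := by
  obtain ⟨H, i1, i2, φ, z, h1, h2, h3, h4⟩ := hg
  have hlen : ∀ u ∈ children W, u.length = j + 1 := by
    intro u hu
    obtain ⟨u', hu', b, rfl⟩ := mem_children.1 hu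
    simp [hW u' hu']
  set Θ := range P ×ˢ range (2 ^ k) with hΘ
  set F : ℕ × ℕ → H := fun t => φ (Y (x, (P, (j + 1, t)))) with hF
  set G : List Bool → H := fun u => ∑ t ∈ Θ, ((sgn (lab P t u) : ℤ) : ℝ) • F t with hG
  set A : ℝ := ((P * 2 ^ k : ℕ) : ℝ) with hA
  have hA0 : 0 < A := by
    rw [hA]
    have : 0 < P * 2 ^ k := Nat.mul_pos hP.pos (by positivity)
    exact_mod_cast this
  have hcardΘ : (Θ.card : ℝ) = A := by
    rw [hΘ, Finset.card_product, Finset.card_range, Finset.card_range]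
  have happ : ∀ u : List Bool, u.length = j + 1 →
      |((4 * Z : ℕ) : ℝ) * ‖G u‖ ^ 2 - (quad κ Y P (2 ^ k) Z x u : ℤ)| ≤ A * A := by
    intro u hu
    refine quad_approx (κ := κ) (Y := Y) (x := x) (u := u) F ?_
    intro t ht t' ht'
    rw [hu]
    exact h1 (j + 1) hj t ht t' ht'
  have hA2 : (((3 * ((P * 2 ^ k) * (P * 2 ^ k)) : ℕ) : ℤ) : ℝ) = 3 * (A * A) := by
    rw [hA]; push_cast; ring
  -- the true node is kept
  have hl : (w.take (j + 1)).length = j + 1 := by rw [List.length_take]; omega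
  have htrue : A ≤ ⟪G (w.take (j + 1)), z⟫_ℝ := by
    rw [hG]
    simp only
    rw [sum_inner, ← hcardΘ]
    have e1 : ∀ t ∈ Θ, (1 : ℝ) ≤ ⟪((sgn (lab P t (w.take (j + 1))) : ℤ) : ℝ) • F t, z⟫_ℝ := by
      intro t ht
      rw [inner_smul_left]
      obtain ⟨e2, e3⟩ := h4 (j + 1) hj t ht
      cases hb : lab P t (w.take (j + 1))
      · have := e3 hb
        simp only [sgn, Bool.false_eq_true, if_false, hF]
        simp only [Int.cast_neg, Int.cast_one, map_neg, map_one]
        linarith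
      · have := e2 hb
        simp only [sgn, if_true, hF]
        simp only [Int.cast_one, map_one]
        linarith
    have e2 := Finset.card_nsmul_le_sum Θ _ 1 e1
    rw [nsmul_eq_mul, mul_one] at e2
    exact e2
  have htrue2 : A * A ≤ Z * ‖G (w.take (j + 1))‖ ^ 2 := by
    have e1 := htrue.trans (real_inner_le_norm _ _)
    have e2 : A * A ≤ (‖G (w.take (j + 1))‖ * ‖z‖) * (‖G (w.take (j + 1))‖ * ‖z‖) :=
      mul_le_mul e1 e1 hA0.le (hA0.le.trans e1)
    have e3 : (‖G (w.take (j + 1))‖ * ‖z‖) * (‖G (w.take (j + 1))‖ * ‖z‖) =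
        ‖z‖ ^ 2 * ‖G (w.take (j + 1))‖ ^ 2 := by ring
    rw [e3] at e2
    exact e2.trans (mul_le_mul_of_nonneg_right h3 (sq_nonneg _))
  have hkeep : keep κ Y P (2 ^ k) Z x (w.take (j + 1)) = true := by
    unfold keep
    rw [decide_eq_true_eq]
    have e1 := happ _ hl
    have e2 := (abs_le.1 e1).2
    have e3 : (3 : ℝ) * (A * A) ≤ (quad κ Y P (2 ^ k) Z x (w.take (j + 1)) : ℤ) := by
      have e4 : ((4 * Z : ℕ) : ℝ) * ‖G (w.take (j + 1))‖ ^ 2 =
        4 * (Z * ‖G (w.take (j + 1))‖ ^ 2) := by push_cast; ring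
      rw [e4] at e2
      linarith
    rw [← hA2] at e3
    exact_mod_cast e3
  have hchild : w.take (j + 1) ∈ children W := by
    refine mem_children.2 ⟨w.take j, hmem, w[j], ?_⟩
    rw [List.take_succ_eq_append_getElem (by omega)]
  -- few nodes are kept
  set W' := (children W).filter (keep κ Y P (2 ^ k) Z x) with hW'
  have hcount : W'.length ≤ M := by
    have hnd : W'.Nodup := (children_nodup hW2).filter _
    have hcard : W'.toFinset.card = W'.length := List.toFinset_card_of_nodup hnd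
    have hokall : ∀ u ∈ W'.toFinset, keep κ Y P (2 ^ k) Z x u = true ∧ u.length = j + 1 := by
      intro u hu
      rw [List.mem_toFinset, hW', List.mem_filter] at hu
      exact ⟨hu.2, hlen u hu.1⟩
    have hbig : ∀ u ∈ W'.toFinset, A * A ≤ 2 * Z * ‖G u‖ ^ 2 := by
      intro u hu
      obtain ⟨e1, e2⟩ := hokall u hu
      unfold keep at e1
      rw [decide_eq_true_eq] at e1
      have e3 : (3 : ℝ) * (A * A) ≤ (quad κ Y P (2 ^ k) Z x u : ℤ) := by
        rw [← hA2]
        exact_mod_cast e1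
      have e4 := (abs_le.1 (happ u e2)).1
      have e5 : ((4 * Z : ℕ) : ℝ) * ‖G u‖ ^ 2 = 2 * (2 * Z * ‖G u‖ ^ 2) := by push_cast; ring
      rw [e5] at e4
      linarith
    set E : ℝ := ((2 ^ k * (j + 1) : ℕ) : ℝ) with hEdef
    have hbes := bessel Θ W'.toFinset (fun t u => ((sgn (lab P t u) : ℤ) : ℝ)) F E
      (by positivity) (fun t _ v _ => by
        rw [← Int.cast_mul, H579R2.Spt.sgn_mul_self]; simp) (fun u hu v hv huv => by
        have e1 := (hokall u hu).2
        have e2 := (hokall v hv).2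
        have e3 := lab_orth hP hk u v (e1.trans e2.symm) huv
        rw [e1] at e3
        have e4 : ((∑ t ∈ Θ, sgn (lab P t u) * sgn (lab P t v) : ℤ) : ℝ) =
          ∑ t ∈ Θ, ((sgn (lab P t u) : ℤ) : ℝ) * ((sgn (lab P t v) : ℤ) : ℝ) := by
          push_cast
          rfl
        rw [← e4, ← Int.cast_abs, hEdef]
        exact_mod_cast e3)
    have hsum1 : (W'.toFinset.card : ℝ) * (A * A) ≤
        2 * Z * ∑ u ∈ W'.toFinset, ‖G u‖ ^ 2 := by
      rw [Finset.mul_sum]
      have := Finset.card_nsmul_le_sum W'.toFinset _ _ hbig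
      rw [nsmul_eq_mul] at this
      exact this
    have hsum2 : ∑ t ∈ Θ, ‖F t‖ ^ 2 ≤ A * R := by
      refine (Finset.sum_le_card_nsmul _ _ _ fun t ht => h2 (j + 1) hj t ht).trans ?_
      rw [nsmul_eq_mul, hcardΘ]
    set c : ℝ := (W'.toFinset.card : ℝ) with hc
    have hc0 : 0 ≤ c := by positivity
    have hE0 : 0 ≤ E := by positivity
    have hZ0 : (0 : ℝ) ≤ Z := by positivity
    have hR0 : (0 : ℝ) ≤ R := by positivity
    have e1 : c * (A * A) ≤ 2 * Z * ((A + c * E) * (A * R)) := by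
      refine hsum1.trans (mul_le_mul_of_nonneg_left ?_ (by positivity))
      rw [hcardΘ] at hbes
      exact hbes.trans (mul_le_mul_of_nonneg_left hsum2 (by positivity))
    have e2 : 4 * (Z * R * E) ≤ A := by
      have e3 : 4 * Z * R * (j + 1) ≤ P := by
        refine le_trans ?_ hE
        exact Nat.mul_le_mul_left _ hj
      have e4 : 4 * Z * R * (2 ^ k * (j + 1)) ≤ P * 2 ^ k := by
        calc 4 * Z * R * (2 ^ k * (j + 1)) = (4 * Z * R * (j + 1)) * 2 ^ k := by ring
          _ ≤ P * 2 ^ k := Nat.mul_le_mul_right _ e3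
      have e5 : ((4 * Z * R * (2 ^ k * (j + 1)) : ℕ) : ℝ) ≤ ((P * 2 ^ k : ℕ) : ℝ) := by
        exact_mod_cast e4
      rw [hEdef, hA]
      refine le_trans (le_of_eq ?_) e5
      push_cast
      ring
    have e3 : c * A ≤ 2 * (Z * R) * A + c * (2 * (Z * R * E)) := by
      have e4 : (c * A) * A ≤ (2 * (Z * R) * A + c * (2 * (Z * R * E))) * A := by
        calc (c * A) * A = c * (A * A) := by ring
          _ ≤ _ := e1
          _ = _ := by ring
      exact le_of_mul_le_mul_right e4 hA0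
    have e4 : c * (2 * (Z * R * E)) ≤ c * (A / 2) :=
      mul_le_mul_of_nonneg_left (by linarith) hc0
    have e5 : c * A ≤ (4 * (Z * R)) * A := by nlinarith
    have e6 : c ≤ 4 * (Z * R) := le_of_mul_le_mul_right e5 hA0
    have e7 : ((W'.length : ℕ) : ℝ) ≤ ((4 * Z * R : ℕ) : ℝ) := by
      rw [← hcard, ← hc]
      refine e6.trans (le_of_eq ?_)
      push_cast
      ring
    have e8 : W'.length ≤ 4 * Z * R := by exact_mod_cast e7
    exact e8.trans hM
  unfold next
  rw [if_pos hcount]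
  exact List.mem_filter.2 ⟨hchild, hkeep⟩

theorem level_mem {κ : ℕ → List Bool → List Bool → ℤ}
    {Y : X × (ℕ × (ℕ × (ℕ × ℕ))) → List Bool} {P k Z R : ℕ} {x : X} {w : List Bool}
    (hg : Sees κ Y P (2 ^ k) Z R x w) (hP : P.Prime) (hk : P ≤ 2 ^ k) {M : ℕ}
    (hM : 4 * Z * R ≤ M) (hE : 4 * Z * R * w.length ≤ P) :
    w ∈ level κ Y P (2 ^ k) Z M x w.length := by
  have key : ∀ j ≤ w.length, w.take j ∈ level κ Y P (2 ^ k) Z M x j := by
    intro j
    induction j with
    | zero => intro _; simp [level]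
    | succ j ih =>
      intro hj
      obtain ⟨h1, _, h3⟩ := level_inv κ Y P (2 ^ k) Z M x j
      have h5 := ih (by omega)
      have h6 := next_mem hg hP hk hM hE j hj _ h1 h3 h5
      unfold level at h6 ⊢
      rw [Function.iterate_succ_apply']
      exact h6
  have := key w.length le_rfl
  rwa [List.take_length] at this

end Pool.Agent.Helper49.KM
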