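import Pool.Agent.Helper49.KM.Lang
import Pool.Agent.Helper70K1.SP.Dnf

/-!
# Evaluation of quantified formulas with lists of candidates

The recursion of `Pool.Agent.Helper70K1.SP.Alg`, for any polynomial-time function that gives lists
of candidates for the round polynomials.
-/

set_option autoImplicit false

namespace Pool.Agent.Helper49.KM

open Pool.Agent.NPC
open Pool.Agent.Helper70K1.SP

/-- The recursive evaluation. -/
def runC (cd : Ins → List (List ℕ)) (D : ℕ) (W : List Unit) (p : ℕ)
    (F : List (List (Bool × ℕ))) : List Op → List ℕ → ℕ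
  | [], r => leafN p F r
  | o :: os, r => stepV p (o, r.getD o.2 0, sep D p (cd (W, p, F, os, r, o.2)),
      cd (W, p, F, os, r, o.2))
      (runC cd D W p F os (r.set o.2 (sep D p (cd (W, p, F, os, r, o.2)))))

theorem runC_correct {cd : Ins → List (List ℕ)} {D : ℕ} {W : List Unit} {p : ℕ}
    (hspec : ∀ I, ∀ c ∈ cd I, c.length = I.m ∧ ∀ a ∈ c, a ≤ I.p)
    {F : List (List (Bool × ℕ))} {os0 : List Op} {n d K : ℕ} [Fact (p + 1).Prime]
    (hpm : p < 2 ^ W.length) (hp1 : 1 ≤ p) (hd : d < W.length) (hK : K * K * W.length ≤ p)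
    (hD : p < D) (hidx : ∀ o ∈ os0, o.2 < n)
    (hdeg : ∀ os, os <:+ os0 → AllDeg (R := ZMod (p + 1)) n d (val (leafC F) os))
    (hcand : ∀ (os : List Op) (r : List ℕ) (i : ℕ), os <:+ os0 → r.length = n → (∀ a ∈ r, a ≤ p) →
      i < n → (cd (W, p, F, os, r, i)).length ≤ K ∧
        ∀ V, Good (W, p, F, os, r, i) V → cf W.length V ∈ cd (W, p, F, os, r, i)) :
    ∀ (os : List Op) (r : List ℕ), os <:+ os0 → r.length = n → (∀ a ∈ r, a ≤ p) →
      ((runC cd D W p F os r : ℕ) : ZMod (p + 1)) = val (leafC F) os (pt p r)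
  | [], r, _, _, _ => cast_leafN p F r
  | o :: os, r, hs, hr, hra => by
    have hs' : os <:+ os0 := (List.suffix_cons o os).trans hs
    have hi : o.2 < n := hidx o (hs.subset List.mem_cons_self)
    obtain ⟨h1, h2⟩ := hcand os r o.2 hs' hr hra hi
    obtain ⟨V, hV⟩ := good_exists (I := (W, p, F, os, r, o.2)) hpm (hdeg os hs' o.2 hi) hd
    have hVC := h2 V hV
    set C := cd (W, p, F, os, r, o.2) with hC
    have hsep := sep_spec (D := D) (p := p) (C := C) (m := W.length) (K := K)
      (fun c hc => hspec (W, p, F, os, r, o.2) c hc) h1 hK hD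
    set t := sep D p C with ht
    have htp : t ≤ p := sep_le _ _ _
    have hrs : (r.set o.2 t).length = n := by rw [List.length_set, hr]
    have hrs2 : ∀ a ∈ r.set o.2 t, a ≤ p := fun a ha => by
      rcases List.mem_or_eq_of_mem_set ha with h | h
      · exact hra a h
      · exact h ▸ htp
    have ih := runC_correct hspec hpm hp1 hd hK hD hidx hdeg hcand os (r.set o.2 t) hs' hrs hrs2
    rw [pt_set (by rw [hr]; exact hi)] at ih
    have hg : ∀ t ≤ p, val (leafC F) os (Function.update (pt p r) o.2 (t : ZMod (p + 1))) =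
      (evalN p (cf W.length V) t : ZMod (p + 1)) := hV.2.2
    rw [hg t htp] at ih
    have hy : evalN p (cf W.length V) t = runC cd D W p F os (r.set o.2 t) % (p + 1) := by
      refine cast_inj_of_le (evalN_le _ _ _) (Nat.lt_succ_iff.1 (Nat.mod_lt _ (Nat.succ_pos p))) ?_
      rw [cast_mod, ih]
    have hfind : ((C.filter fun c => decide (evalN p c t =
        runC cd D W p F os (r.set o.2 t) % (p + 1))).head?).getD [] = cf W.length V := by
      cases hfl : (C.filter fun c => decide (evalN p c t =
        runC cd D W p F os (r.set o.2 t) % (p + 1))) with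
      | nil =>
        have : cf W.length V ∈ (C.filter fun c => decide (evalN p c t =
            runC cd D W p F os (r.set o.2 t) % (p + 1))) :=
          List.mem_filter.2 ⟨hVC, by simpa using hy⟩
        rw [hfl] at this
        simp at this
      | cons c l =>
        have : c ∈ (C.filter fun c => decide (evalN p c t =
            runC cd D W p F os (r.set o.2 t) % (p + 1))) := by
          rw [hfl]; exact List.mem_cons_self
        rw [List.mem_filter, decide_eq_true_eq] at this
        simp only [List.head?_cons, Option.getD_some]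
        exact hsep c this.1 _ hVC (this.2.trans hy.symm)
    have hrun : runC cd D W p F (o :: os) r = combN p o.1 (r.getD o.2 0)
        (evalN p (cf W.length V) 0) (evalN p (cf W.length V) 1) := by
      rw [runC, ← hC, ← ht, stepV]
      simp only [hfind]
    rw [hrun, cast_combN, ← hg 0 (by omega), ← hg 1 hp1, Nat.cast_zero, Nat.cast_one]
    rfl

/-! ### The recursion as two folds -/

/-- A forward step. -/
def fwdC (cd : Ins → List (List ℕ)) (D : ℕ) (W : List Unit) (p : ℕ)
    (F : List (List (Bool × ℕ))) (s : List Op × List ℕ × List Ent) :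
    List Op × List ℕ × List Ent :=
  s.1.head?.elim s fun o =>
    (s.1.tail, s.2.1.set o.2 (sep D p (cd (W, p, F, s.1.tail, s.2.1, o.2))),
      (o, s.2.1.getD o.2 0, sep D p (cd (W, p, F, s.1.tail, s.2.1, o.2)),
        cd (W, p, F, s.1.tail, s.2.1, o.2)) :: s.2.2)

theorem fwdC_run (cd : Ins → List (List ℕ)) (D : ℕ) (W : List Unit) (p : ℕ)
    (F : List (List (Bool × ℕ))) : ∀ (os : List Op) (r : List ℕ) (tr : List Ent),
    ((fwdC cd D W p F)^[os.length] (os, r, tr)).2.2.foldl (fun y e => stepV p e y)
      (leafN p F ((fwdC cd D W p F)^[os.length] (os, r, tr)).2.1) =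
      tr.foldl (fun y e => stepV p e y) (runC cd D W p F os r)
  | [], r, tr => rfl
  | o :: os, r, tr => by
    rw [List.length_cons, Function.iterate_succ_apply]
    have h := fwdC_run cd D W p F os (r.set o.2 (sep D p (cd (W, p, F, os, r, o.2))))
      ((o, r.getD o.2 0, sep D p (cd (W, p, F, os, r, o.2)),
        cd (W, p, F, os, r, o.2)) :: tr)
    exact h

variable {α : Type} [TEnc α]

theorem poly_fwdC {cd : Ins → List (List ℕ)} (hcd : NPC.Poly cd)
    {D p : α → ℕ} (hD : UPoly D) {W : α → List Unit} (hW : NPC.Poly W)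
    (hp : NPC.Poly p) {F : α → List (List (Bool × ℕ))} (hF : NPC.Poly F)
    {s : α → List Op × List ℕ × List Ent} (hs : NPC.Poly s) :
    NPC.Poly (fun a => fwdC cd (D a) (W a) (p a) (F a) (s a)) := by
  unfold fwdC
  refine NPC.Poly.optElim (o := fun a => (s a).1.head?) (h := fun a (o : Op) =>
    ((s a).1.tail, (s a).2.1.set o.2 (sep (D a) (p a) (cd (W a, p a, F a, (s a).1.tail,
      (s a).2.1, o.2))), (o, (s a).2.1.getD o.2 0, sep (D a) (p a) (cd (W a, p a, F a,
        (s a).1.tail, (s a).2.1, o.2)), cd (W a, p a, F a, (s a).1.tail, (s a).2.1,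
          o.2)) :: (s a).2.2)) (by fun_prop) hs ?_
  have h0 : NPC.Poly (fun x : α × Op => ((W x.1, p x.1, F x.1, (s x.1).1.tail,
      (s x.1).2.1, x.2.2) : Ins)) := by fun_prop
  have h1 : NPC.Poly (fun x : α × Op => cd (W x.1, p x.1, F x.1, (s x.1).1.tail,
      (s x.1).2.1, x.2.2)) := hcd.comp h0
  have h2 : NPC.Poly (fun x : α × Op => sep (D x.1) (p x.1) (cd (W x.1, p x.1, F x.1,
      (s x.1).1.tail, (s x.1).2.1, x.2.2))) :=
    poly_sep (hD.comp (NPC.Poly.fst NPC.Poly.id)) (hp.comp (NPC.Poly.fst NPC.Poly.id)) h1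
  fun_prop

theorem inv_stepC {cd : Ins → List (List ℕ)} {QD qc : Polynomial ℕ}
    (hqc : ∀ I : Ins, sz (cd I) ≤ qc.eval (sz I)) {W : List Unit} {p : ℕ}
    {F : List (List (Bool × ℕ))} {X n k : ℕ} (hX : sz W + sz p + sz F ≤ X) (hn : n ≤ X)
    {s : List Op × List ℕ × List Ent}
    (h : Inv X n k (10 * X + qc.eval (2 * X * X + 4 * X + 6) + 10) s) :
    Inv X n (k + 1) (10 * X + qc.eval (2 * X * X + 4 * X + 6) + 10)
      (fwdC cd (QD.eval W.length) W p F s) := by
  obtain ⟨h1, h2, h3, h4, h5⟩ := h
  unfold fwdC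
  cases ho : s.1.head? with
  | none => exact ⟨h1, h2, h3, by simp only [Option.elim_none]; omega, h5⟩
  | some o =>
    rw [Option.elim_some]
    set C := cd (W, p, F, s.1.tail, s.2.1, o.2) with hC
    have ho1 : sz o < sz s.1 := sz_le_of_mem (mem_head?_of_eq ho)
    have ho2 : sz o = sz o.1 + sz o.2 + 1 := by rw [← sz_pair]
    have h6 : sz s.1.tail ≤ sz s.1 := sz_tail_le s.1
    have h7 : sz s.2.1 ≤ X * (2 * X + 1) + 1 := by
      refine (sz_le_length_mul _ _ h3).trans ?_
      rw [h2]
      exact Nat.add_le_add_right (Nat.mul_le_mul_right _ hn) _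
    have h8 : sz C ≤ qc.eval (2 * X * X + 4 * X + 6) := by
      refine (hqc (W, p, F, s.1.tail, s.2.1, o.2)).trans (eval_mono _ ?_)
      simp only [sz_pair]
      nlinarith
    have ht : sz (sep (QD.eval W.length) p C) ≤ 2 * X := by
      have := sz_nat_mono_le (sep_le (QD.eval W.length) p C)
      omega
    have hg : sz (s.2.1.getD o.2 0) ≤ 2 * X + 1 := by
      rw [List.getD_eq_getElem?_getD]
      cases h9 : s.2.1[o.2]? with
      | none => simp [sz_nat]
      | some x =>
        have := h3 x (List.mem_of_getElem? h9)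
        simp only [Option.getD_some]
        omega
    refine ⟨h6.trans h1, by simp only [List.length_set]; exact h2, fun x hx => ?_, ?_, fun e he => ?_⟩
    · rcases List.mem_or_eq_of_mem_set hx with h9 | h9
      · exact h3 x h9
      · rw [h9]; exact ht
    · simp only [List.length_cons]; omega
    · simp only at he
      rcases List.mem_cons.1 he with h9 | h9
      · rw [h9]
        simp only [sz_pair]
        rw [ho2] at ho1
        have : sz o = sz o.1 + sz o.2 + 1 := ho2
        omega
      · exact h5 e h9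

theorem inv_iterC {cd : Ins → List (List ℕ)} {QD qc : Polynomial ℕ}
    (hqc : ∀ I : Ins, sz (cd I) ≤ qc.eval (sz I)) {W : List Unit} {p : ℕ}
    {F : List (List (Bool × ℕ))} {os : List Op} {r : List ℕ} {X : ℕ}
    (hX : sz W + sz p + sz F + sz os + sz r ≤ X) : ∀ k : ℕ,
    Inv X r.length k (10 * X + qc.eval (2 * X * X + 4 * X + 6) + 10)
      ((fwdC cd (QD.eval W.length) W p F)^[k] (os, r, []))
  | 0 => ⟨by simp only [Function.iterate_zero, id_eq]; omega, rfl, fun x hx => by
      have := sz_le_of_mem hx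
      simp only [Function.iterate_zero, id_eq] at this
      omega, by simp, by simp⟩
  | k + 1 => by
    rw [Function.iterate_succ_apply']
    have h1 := length_lt_sz r
    exact inv_stepC hqc (by omega) (by omega) (inv_iterC hqc hX k)

theorem poly_iterC {cd : Ins → List (List ℕ)} (hcd : NPC.Poly cd)
    (QD : Polynomial ℕ) {p : α → ℕ} {W : α → List Unit} (hW : NPC.Poly W)
    (hp : NPC.Poly p) {F : α → List (List (Bool × ℕ))} (hF : NPC.Poly F) {os : α → List Op}
    (hos : NPC.Poly os) {r : α → List ℕ} (hr : NPC.Poly r) :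
    NPC.Poly (fun a => (fwdC cd (QD.eval (W a).length) (W a) (p a)
      (F a))^[(os a).length] (os a, r a, [])) := by
  obtain ⟨qc, hqc⟩ := hcd.sz_le
  have htup : NPC.Poly (fun a => ((W a, p a), (F a, (os a, r a)))) := by fun_prop
  obtain ⟨q0, hq0⟩ := htup.sz_le
  set PE : Polynomial ℕ := Polynomial.C 10 * Polynomial.X +
    qc.comp (Polynomial.C 2 * Polynomial.X * Polynomial.X + Polynomial.C 4 * Polynomial.X +
      Polynomial.C 6) + Polynomial.C 10 with hPE
  set PT : Polynomial ℕ := Polynomial.X + (Polynomial.X * (Polynomial.C 2 * Polynomial.X +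
    Polynomial.C 1) + Polynomial.C 1) + (Polynomial.X * (PE + Polynomial.C 1) + Polynomial.C 1) +
      Polynomial.C 2 with hPT
  refine NPC.Poly.iterLen (s := fun a => (os a, r a, ([] : List Ent))) (F := fun a s =>
    fwdC cd (QD.eval (W a).length) (W a) (p a) (F a) s) hos (by fun_prop)
    ?_ (PT.comp q0) ?_
  · refine poly_fwdC hcd (D := fun x : α × (List Op × List ℕ × List Ent) =>
      QD.eval (W x.1).length) ?_ (W := fun x => W x.1)
      (p := fun x => p x.1) (F := fun x => F x.1) (s := fun x => x.2) ?_ ?_ ?_ ?_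
    · exact (UPoly.length (hW.comp (NPC.Poly.fst NPC.Poly.id))).eval QD
    · fun_prop
    · fun_prop
    · fun_prop
    · fun_prop
  · intro a k hk
    have h1 := hq0 a
    simp only [sz_pair] at h1
    set X := q0.eval (sz a) with hX
    obtain ⟨h2, h3, h4, h5, h6⟩ := inv_iterC (QD := QD) hqc (W := W a) (p := p a) (F := F a)
      (os := os a) (r := r a) (X := X) (by omega) k
    set s := (fwdC cd (QD.eval (W a).length) (W a) (p a) (F a))^[k]
      (os a, r a, []) with hs
    have hk2 : k ≤ X := by
      have := length_lt_sz (os a)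
      omega
    have hn : (r a).length ≤ X := by
      have := length_lt_sz (r a)
      omega
    have h7 : sz s = sz s.1 + (sz s.2.1 + sz s.2.2 + 1) + 1 := by
      rw [← sz_pair, ← sz_pair]
    have h8 : sz s.2.1 ≤ X * (2 * X + 1) + 1 := by
      refine (sz_le_length_mul _ _ h4).trans ?_
      rw [h3]
      exact Nat.add_le_add_right (Nat.mul_le_mul_right _ hn) _
    have hPEv : PE.eval X = 10 * X + qc.eval (2 * X * X + 4 * X + 6) + 10 := by
      rw [hPE]
      simp [Polynomial.eval_comp]
    have h9 : sz s.2.2 ≤ X * (PE.eval X + 1) + 1 := by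
      refine (sz_le_length_mul _ _ h6).trans ?_
      rw [hPEv]
      exact Nat.add_le_add_right (Nat.mul_le_mul_right _ (h5.trans hk2)) _
    have hPTv : (PT.comp q0).eval (sz a) = X + (X * (2 * X + 1) + 1) + (X * (PE.eval X + 1) + 1) +
        2 := by
      rw [hPT, Polynomial.eval_comp, ← hX]
      simp
    have e : (fun s => fwdC cd (QD.eval (W a).length) (W a) (p a) (F a) s) =
      fwdC cd (QD.eval (W a).length) (W a) (p a) (F a) := rfl
    rw [hPTv]
    omega

theorem poly_runC {cd : Ins → List (List ℕ)} (hcd : NPC.Poly cd)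
    (QD : Polynomial ℕ) {p : α → ℕ} {W : α → List Unit} (hW : NPC.Poly W)
    (hp : NPC.Poly p) {F : α → List (List (Bool × ℕ))} (hF : NPC.Poly F) {os : α → List Op}
    (hos : NPC.Poly os) {r : α → List ℕ} (hr : NPC.Poly r) :
    NPC.Poly (fun a => runC cd (QD.eval (W a).length) (W a) (p a)
      (F a) (os a) (r a)) := by
  have h1 := poly_iterC hcd QD hW hp hF hos hr
  obtain ⟨q0, hq0⟩ := hp.sz_le
  have h2 : NPC.Poly (fun a => ((fwdC cd (QD.eval (W a).length) (W a) (p a)
      (F a))^[(os a).length] (os a, r a, [])).2.2.foldl (fun y e => stepV (p a) e y)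
      (leafN (p a) (F a) ((fwdC cd (QD.eval (W a).length) (W a) (p a)
      (F a))^[(os a).length] (os a, r a, [])).2.1)) := by
    refine NPC.Poly.foldl (F := fun a y e => stepV (p a) e y) (NPC.Poly.snd (NPC.Poly.snd h1))
      (poly_leafN hp hF (NPC.Poly.fst (NPC.Poly.snd h1))) ?_
      (Polynomial.C 4 * q0 + Polynomial.C 10) ?_
    · exact poly_stepV (p := fun x : α × ℕ × Ent => p x.1) (y := fun x => x.2.1)
        (e := fun x => x.2.2) (by fun_prop) (by fun_prop) (by fun_prop)
    · intro a k hk
      have h3 := foldl_stepV_le (p a) (((fwdC cd (QD.eval (W a).length) (W a)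
        (p a) (F a))^[(os a).length] (os a, r a, [])).2.2.take k)
        (leafN (p a) (F a) ((fwdC cd (QD.eval (W a).length) (W a) (p a)
      (F a))^[(os a).length] (os a, r a, [])).2.1) (leafN_le _ _ _)
      have h4 := sz_nat_mono_le h3
      have h5 := sz_succ_le (p a)
      have h6 := hq0 a
      simp only [Polynomial.eval_add, Polynomial.eval_mul, Polynomial.eval_C]
      omega
  exact h2.congr fun a => fwdC_run cd _ _ _ _ _ _ _

end Pool.Agent.Helper49.KM
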