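import Mathlib
import Pool.Agent.NPC.Defs
import Pool.Agent.NPC.Classes
import Pool.Agent.H623R2.PS.Defs

/-!
# Kernels with polynomial margin

A kernel is a real function `⟪φ x, φ y⟫` of two bit strings `x`, `y` of the same length, where `φ`
maps the strings of that length into some real inner product space.
-/

set_option autoImplicit false

namespace Pool.Agent.Helper49.KM

open scoped InnerProductSpace
open Pool.Agent.NPC

/-- `L` is linearly separated, with polynomial margin, by a kernel that can be approximated in
polynomial time. That is: there are a polynomial `q` and a function `κ` with integer values, where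
`κ k x y` is computed in polynomial time from the code of `(k, x, y)` with `k` in unary, such that
for each length `n` there are a real inner product space, vectors `φ x` and a vector `z` in it with
the following properties for all strings `x`, `y` of length `n`:
`κ k x y / k` differs from `⟪φ x, φ y⟫` by at most `1 / k`, the squared norms of `φ x` and `z` are
at most `q n`, and `⟪φ x, z⟫` is at least `1` if `x ∈ L` and at most `-1` if `x ∉ L`. -/
def Separable (L : Set (List Bool)) : Prop :=
  ∃ (κ : ℕ → List Bool → List Bool → ℤ) (q : Polynomial ℕ),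
    (∃ F : List Bool → List Bool, PolyTime F ∧
      ∀ k x y, F (bits (List.replicate k (), x, y)) = bits (κ k x y)) ∧
    ∀ n : ℕ, ∃ (H : Type) (_ : NormedAddCommGroup H) (_ : InnerProductSpace ℝ H)
      (φ : List Bool → H) (z : H),
      (∀ k x y, x.length = n → y.length = n → |k * ⟪φ x, φ y⟫_ℝ - κ k x y| ≤ 1) ∧
      (∀ x, x.length = n → ‖φ x‖ ^ 2 ≤ q.eval n) ∧ ‖z‖ ^ 2 ≤ q.eval n ∧
      ∀ x, x.length = n → (x ∈ L → 1 ≤ ⟪φ x, z⟫_ℝ) ∧ (x ∉ L → ⟪φ x, z⟫_ℝ ≤ -1)

end Pool.Agent.Helper49.KM
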