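import Pool.Agent.Helper49.KM.SearchPoly
import Pool.Agent.Helper70K1.SP.Main

/-!
# The language of labels of the prefixes of the round polynomials
-/

set_option autoImplicit false

namespace Pool.Agent.Helper49.KM

open Pool.Agent.NPC
open Pool.Agent.H623R2.PS (evq evq_exists evq_and InPSPACE inPSPACE_of_evq)
open Pool.Agent.Helper70K1.SP
open Pool.Agent.H579R2.Spt (lab lab_poly)

/-- For an instance, the check of a given string. -/
theorem chk_key {I : Ins} (h : Wf I) {M : List Bool} (hM : M.length = I.m * I.m) :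
    (evq (List.replicate I.m true ++ blk I.m I.os) (fun u => chk I 1 0 (M ++ u)) = true ↔
      Good I (valB M)) := by
  obtain ⟨hp, hi, ho⟩ := h
  have e1 : ∀ u, (M ++ u).take (I.m * I.m) = M := fun u => by rw [← hM, List.take_left]
  have e2 : ∀ u, (M ++ u).drop (I.m * I.m) = u := fun u => by rw [← hM, List.drop_left]
  have e3 : ∀ u, (M ++ u).drop (I.m * I.m + I.m) = u.drop I.m := fun u => by
    rw [← List.drop_drop, e2]
  have e4 : (fun u => chk I 1 0 (M ++ u)) = fun u =>
      ((cf I.m (valB M)).all (fun c => decide (c ≤ I.p)) && decide (valB M % 1 = 0)) &&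
      (decide (I.p < valB (u.take I.m)) ||
        cfin I.p I.F (I.os.foldl (cstep I.m I.p) (I.r.set I.i (valB (u.take I.m)),
          evalN I.p (cf I.m (valB M)) (valB (u.take I.m)), true, u.drop I.m))) := by
    funext u
    simp only [chk, e1, e2, e3]
  rw [e4, evq_and, Bool.and_eq_true, Bool.and_eq_true, decide_eq_true_eq, List.all_eq_true,
    evq_forall]
  have key2 : ∀ T : List Bool, T.length = I.m →
      (evq (blk I.m I.os) (fun u => decide (I.p < valB ((T ++ u).take I.m)) ||
        cfin I.p I.F (I.os.foldl (cstep I.m I.p) (I.r.set I.i (valB ((T ++ u).take I.m)),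
          evalN I.p (cf I.m (valB M)) (valB ((T ++ u).take I.m)), true, (T ++ u).drop I.m))) =
        true ↔
        (valB T ≤ I.p → val (leafC I.F) I.os (Function.update (pt I.p I.r) I.i
          (valB T : ZMod (I.p + 1))) = (evalN I.p (cf I.m (valB M)) (valB T) :
            ZMod (I.p + 1)))) := by
    intro T hT
    have e5 : ∀ u, (T ++ u).take I.m = T := fun u => by rw [← hT, List.take_left]
    have e6 : ∀ u, (T ++ u).drop I.m = u := fun u => by rw [← hT, List.drop_left]
    simp only [e5, e6]
    rw [evq_or, Bool.or_eq_true, decide_eq_true_eq, chain_iff hp I.F I.os _ _ _ (fun o hoo => by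
      rw [List.length_set]; exact ho o hoo), pt_set hi]
    constructor
    · rintro (h1 | h1) h2
      · omega
      · exact h1.2
    · intro h1
      by_cases h2 : I.p < valB T
      · exact Or.inl h2
      · exact Or.inr ⟨rfl, h1 (by omega)⟩
  constructor
  · rintro ⟨⟨h1, h2⟩, h3⟩
    refine ⟨?_, fun c hc => by simpa using h1 c hc, fun t ht => ?_⟩
    · have := valB_lt M
      rwa [hM] at this
    · obtain ⟨T, hT, rfl⟩ := exists_valB (n := I.m) (V := t) (lt_of_le_of_lt ht hp)
      exact (key2 T hT).1 (h3 T hT) ht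
  · rintro ⟨h1, h2, h3⟩
    exact ⟨⟨fun c hc => by simpa using h2 c hc, Nat.mod_one _⟩, fun T hT => (key2 T hT).2
      fun h5 => h3 _ h5⟩

/-- Queries: an instance, a prime, a length and a test. -/
abbrev QK := Ins × (ℕ × (ℕ × (ℕ × ℕ)))

/-- The check for a query. -/
def chkK (Q : QK) (u : List Bool) : Bool :=
  lab Q.2.1 Q.2.2.2 ((u.take (Q.1.m * Q.1.m)).take Q.2.2.1) && chk Q.1 1 0 u

theorem chkK_iff {I : Ins} (h : Wf I) (P j : ℕ) (t : ℕ × ℕ) :
    evq (qsI I) (chkK (I, (P, (j, t)))) = true ↔
      ∃ M : List Bool, M.length = I.m * I.m ∧ Good I (valB M) ∧ lab P t (M.take j) = true := by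
  unfold qsI
  rw [evq_exists]
  refine exists_congr fun M => and_congr_right fun hM => ?_
  have e1 : ∀ u, (M ++ u).take (I.m * I.m) = M := fun u => by rw [← hM, List.take_left]
  have e4 : (fun u => chkK (I, (P, (j, t))) (M ++ u)) = fun u =>
      lab P t (M.take j) && chk I 1 0 (M ++ u) := by
    funext u
    simp only [chkK, e1]
  rw [e4, evq_and, Bool.and_eq_true, chk_key h hM]
  exact and_comm

/-- The quantifiers. -/
def qsK (o : Option QK) : List Bool := o.elim [] fun Q => qsI Q.1

/-- The check. -/
def chkKO (o : Option QK) (u : List Bool) : Bool := o.elim false fun Q => chkK Q u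

/-- The language of labels. -/
def LK : Set (List Bool) := {x | evq (qsK (unbits QK x)) (chkKO (unbits QK x)) = true}

theorem mem_LK {I : Ins} (h : Wf I) (P j : ℕ) (t : ℕ × ℕ) :
    bits ((I, (P, (j, t))) : QK) ∈ LK ↔
      ∃ M : List Bool, M.length = I.m * I.m ∧ Good I (valB M) ∧ lab P t (M.take j) = true := by
  rw [← chkK_iff h]
  change evq (qsK (unbits QK (bits ((I, (P, (j, t))) : QK)))) (chkKO (unbits QK
    (bits ((I, (P, (j, t))) : QK)))) = true ↔ _
  rw [unbits_bits]
  rfl

theorem poly_qsK : NPC.Poly qsK := by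
  unfold qsK
  refine NPC.Poly.optElim (g := fun _ => []) (h := fun _ (Q : QK) => qsI Q.1) NPC.Poly.id
    (NPC.Poly.const _) ?_
  exact poly_qsI (I := fun x : Option QK × QK => x.2.1) (by fun_prop)

theorem poly_chkKO : NPC.Poly (fun x : Option QK × List Bool => chkKO x.1 x.2) := by
  unfold chkKO
  refine NPC.Poly.optElim (o := fun x : Option QK × List Bool => x.1) (g := fun _ => false)
    (h := fun x (Q : QK) => chkK Q x.2) (by fun_prop) (NPC.Poly.const _) ?_
  have h := poly_chk (I := fun x : (Option QK × List Bool) × QK => x.2.1)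
    (q := fun _ => 1) (b := fun _ => 0) (u := fun x => x.1.2) (by fun_prop)
    (by fun_prop) (by fun_prop) (by fun_prop)
  have h2 := lab_poly (P := fun x : (Option QK × List Bool) × QK => x.2.2.1)
    (t := fun x => x.2.2.2.2) (u := fun x => (x.1.2.take (x.2.1.m * x.2.1.m)).take x.2.2.2.1)
    (by fun_prop) (by fun_prop) (by fun_prop)
  unfold chkK
  exact NPC.Poly.and h2 h

/-- The language of labels is in polynomial space. -/
theorem inPSPACE_LK : InPSPACE LK := by
  refine inPSPACE_of_evq (init := unbits QK) poly_unbits (qs := fun x => qsK (unbits QK x))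
    ?_ (φ := chkKO) poly_chkKO fun x => Iff.rfl
  exact poly_qsK.comp poly_unbits

end Pool.Agent.Helper49.KM
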