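import Pool.Agent.Helper49.KM.Main

/-!
# Threshold reductions to sparse sets give kernels with polynomial margin
-/

set_option autoImplicit false

namespace Pool.Agent.Helper49.KM

open Pool.Agent.NPC
open Pool.Agent.H579R2.Spt (aug aug_poly ev_aug wt_aug dot dot_eq dot_le dot_poly ev ev_eq val wt
  supp mem_supp weight value census card_true_le poly_of_polyTime_bits ThresholdReduces)
open scoped InnerProductSpace

theorem separable_of_threshold {L S : Set (List Bool)} {d c : ℕ → ℕ}
    (h : ThresholdReduces L S d c) (hd : ∃ p : Polynomial ℕ, ∀ n, d n ≤ p.eval n)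
    (hc : ∀ r : Polynomial ℕ, ∃ p : Polynomial ℕ, ∀ n, (census S (r.eval n) + 1) ^ c n ≤ p.eval n) :
    Separable L := by
  classical
  obtain ⟨f, hf, hfL⟩ := h
  have hfp : NPC.Poly f := poly_of_polyTime_bits hf
  obtain ⟨r0, hr0⟩ := hfp.sz_le
  obtain ⟨pd, hpd⟩ := hd
  obtain ⟨pc, hpc⟩ := hc (r0.comp (Polynomial.C 4 * Polynomial.X + 1))
  have hfeat : NPC.Poly (fun x => aug (f x)) := aug_poly.comp hfp
  have hk : NPC.Poly (fun a : List Unit × List Bool × List Bool =>
      ((a.1.length : ℕ) : ℤ) * dot (aug (f a.2.1)) (aug (f a.2.2))) := by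
    refine NPC.Poly.imul (NPC.Poly.natCast (by fun_prop)) (dot_poly
      (hfeat.comp (NPC.Poly.fst (NPC.Poly.snd NPC.Poly.id)))
      (hfeat.comp (NPC.Poly.snd (NPC.Poly.snd NPC.Poly.id))))
  obtain ⟨F, hF, hFk⟩ := raw_of_poly hk
  refine ⟨fun k x y => (k : ℤ) * dot (aug (f x)) (aug (f y)),
    (Polynomial.C 2 * pd + 1) * (Polynomial.C 2 * pd + 1) + pc, ⟨F, hF, fun k x y => ?_⟩,
    fun n => ?_⟩
  · rw [hFk]
    simp only [List.length_replicate]
  · set Ω : Finset (List (List Bool)) := (List.finite_length_eq Bool n).toFinset.biUnion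
      fun x => supp (aug (f x)) with hΩ
    have hsub : ∀ x : List Bool, x.length = n → ∀ a ∈ aug (f x), a.2 ∈ Ω := by
      intro x hx a ha
      rw [hΩ, Finset.mem_biUnion]
      exact ⟨x, by simpa using hx, mem_supp ha⟩
    set z0 : List (List Bool) → ℤ := fun Q => if ∀ y ∈ Q, y ∈ S then 1 else 0 with hz0
    set φ : List Bool → EuclideanSpace ℝ Ω := fun x =>
      WithLp.toLp 2 fun Q : Ω => ((val (aug (f x)) Q.1 : ℤ) : ℝ) with hφ
    set z : EuclideanSpace ℝ Ω := WithLp.toLp 2 fun Q : Ω => ((z0 Q.1 : ℤ) : ℝ) with hz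
    have hin : ∀ x y : List Bool, x.length = n → y.length = n →
        ⟪φ x, φ y⟫_ℝ = (dot (aug (f x)) (aug (f y)) : ℤ) := by
      intro x y hx hy
      rw [dot_eq Ω _ _ (hsub x hx), PiLp.inner_apply, Int.cast_sum, ← Finset.sum_coe_sort Ω]
      refine Finset.sum_congr rfl fun Q _ => ?_
      simp only [hφ, RCLike.inner_apply, conj_trivial]
      push_cast
      ring
    have hinz : ∀ x : List Bool, x.length = n →
        ⟪φ x, z⟫_ℝ = (2 * value S (f x) - 1 : ℤ) := by
      intro x hx
      rw [← ev_aug S z0 (fun Q hQ => by simp only [hz0]; exact if_pos hQ)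
        (fun Q hQ => by simp only [hz0]; exact if_neg hQ) (f x), ev_eq Ω _ _ (hsub x hx),
        PiLp.inner_apply, Int.cast_sum, ← Finset.sum_coe_sort Ω]
      refine Finset.sum_congr rfl fun Q _ => ?_
      simp only [hφ, hz, RCLike.inner_apply, conj_trivial]
      push_cast
      ring
    have hQ1 : ((Polynomial.C 2 * pd + 1) * (Polynomial.C 2 * pd + 1) + pc).eval n =
        (2 * pd.eval n + 1) * (2 * pd.eval n + 1) + pc.eval n := by simp
    refine ⟨EuclideanSpace ℝ Ω, inferInstance, inferInstance, φ, z, ?_, ?_, ?_, ?_⟩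
    · intro k x y hx hy
      rw [hin x y hx hy]
      push_cast
      simp
    · intro x hx
      rw [← real_inner_self_eq_norm_sq, hin x x hx hx, hQ1]
      have e1 := dot_le (aug (f x)) (aug (f x))
      have e2 : wt (aug (f x)) ≤ 2 * pd.eval n + 1 := by
        rw [wt_aug]
        have := (hfL x).2.1
        have := hpd x.length
        rw [hx] at *
        omega
      have e3 : wt (aug (f x)) * wt (aug (f x)) ≤
          (2 * pd.eval n + 1) * (2 * pd.eval n + 1) + pc.eval n :=
        (Nat.mul_le_mul e2 e2).trans (Nat.le_add_right _ _)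
      have e4 : ((wt (aug (f x)) * wt (aug (f x)) : ℕ) : ℤ) ≤
          ((2 * pd.eval n + 1) * (2 * pd.eval n + 1) + pc.eval n : ℕ) := by exact_mod_cast e3
      have e5 : dot (aug (f x)) (aug (f x)) ≤
          ((2 * pd.eval n + 1) * (2 * pd.eval n + 1) + pc.eval n : ℕ) := by
        refine e1.trans (le_trans (le_of_eq ?_) e4)
        push_cast
        ring
      exact_mod_cast e5
    · rw [hQ1]
      have e1 : ‖z‖ ^ 2 = ((Ω.filter fun Q => ∀ y ∈ Q, y ∈ S).card : ℝ) := by
        rw [PiLp.norm_sq_eq_of_L2, Finset.card_filter, Nat.cast_sum, ← Finset.sum_coe_sort Ω]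
        refine Finset.sum_congr rfl fun Q _ => ?_
        simp only [hz, hz0]
        by_cases hQ : ∀ y ∈ Q.1, y ∈ S
        · simp [hQ]
        · simp [hQ]
      rw [e1]
      have e2 : (Ω.filter fun Q => ∀ y ∈ Q, y ∈ S).card ≤
          (census S ((r0.comp (Polynomial.C 4 * Polynomial.X + 1)).eval n) + 1) ^ c n := by
        refine card_true_le S (c n) _ _ ?_ ?_
        · intro Q hQ
          rw [Finset.mem_filter, hΩ, Finset.mem_biUnion] at hQ
          obtain ⟨⟨x, hx, hQx⟩, _⟩ := hQ
          have hx' : x.length = n := by simpa using hx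
          simp only [supp, List.mem_toFinset, List.mem_map] at hQx
          obtain ⟨a, ha, rfl⟩ := hQx
          simp only [aug, List.mem_cons, List.mem_map] at ha
          rcases ha with rfl | ⟨t, ht, rfl⟩
          · simp
          · have := (hfL x).1 t ht
            rw [hx'] at this
            exact this
        · intro Q hQ y hy
          rw [Finset.mem_filter, hΩ, Finset.mem_biUnion] at hQ
          obtain ⟨⟨x, hx, hQx⟩, hQS⟩ := hQ
          refine ⟨hQS y hy, ?_⟩
          have hx' : x.length = n := by simpa using hx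
          simp only [supp, List.mem_toFinset, List.mem_map] at hQx
          obtain ⟨a, ha, rfl⟩ := hQx
          simp only [aug, List.mem_cons, List.mem_map] at ha
          rcases ha with rfl | ⟨t, ht, rfl⟩
          · simp at hy
          · have e3 := hr0 x
            have e4 := sz_listBool_le x
            have e5 : sz t < sz (f x) := sz_le_of_mem ht
            have e6 : sz t = sz t.1 + sz t.2 + 1 := by rw [← sz_pair]
            have e7 : sz y < sz t.2 := sz_le_of_mem hy
            have e8 := length_lt_sz y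
            have e9 : r0.eval (sz x) ≤ r0.eval (4 * n + 1) := eval_mono r0 (by omega)
            simp only [Polynomial.eval_comp, Polynomial.eval_add, Polynomial.eval_mul,
              Polynomial.eval_C, Polynomial.eval_X, Polynomial.eval_one]
            omega
      have e3 := e2.trans (hpc n)
      have e4 : (Ω.filter fun Q => ∀ y ∈ Q, y ∈ S).card ≤
          (2 * pd.eval n + 1) * (2 * pd.eval n + 1) + pc.eval n := by omega
      exact_mod_cast e4
    · intro x hx
      rw [hinz x hx]
      have e1 := (hfL x).2.2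
      constructor
      · intro hxL
        have e2 := e1.1 hxL
        have e3 : (1 : ℤ) ≤ 2 * value S (f x) - 1 := by omega
        exact_mod_cast e3
      · intro hxL
        have e2 : ¬ 0 < value S (f x) := fun h => hxL (e1.2 h)
        have e3 : 2 * value S (f x) - 1 ≤ (-1 : ℤ) := by omega
        exact_mod_cast e3

end Pool.Agent.Helper49.KM
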